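import Mathlib

/-!
# A small language of bounded arithmetic with a list as input
-/

set_option autoImplicit false

namespace Pool.Agent.H877R3.HSC

/-- Terms: variables (de Bruijn levels), constants, entries of the input list, arithmetic. -/
inductive Tm : Type
  | v (i : ℕ) : Tm
  | c (k : ℕ) : Tm
  | inp (t : Tm) : Tm
  | add (s t : Tm) : Tm
  | mul (s t : Tm) : Tm
  | pow (s t : Tm) : Tm
  | div (s t : Tm) : Tm
  | mod (s t : Tm) : Tm

def Tm.ev (x e : List ℕ) : Tm → ℕ
  | Tm.v i => e.getD i 0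
  | Tm.c k => k
  | Tm.inp t => x.getD (t.ev x e) 0
  | Tm.add s t => s.ev x e + t.ev x e
  | Tm.mul s t => s.ev x e * t.ev x e
  | Tm.pow s t => s.ev x e ^ t.ev x e
  | Tm.div s t => s.ev x e / t.ev x e
  | Tm.mod s t => s.ev x e % t.ev x e

/-- Bounded formulas. -/
inductive Bf : Type
  | eq (s t : Tm) : Bf
  | not (p : Bf) : Bf
  | and (p q : Bf) : Bf
  | imp (p q : Bf) : Bf
  | all (t : Tm) (p : Bf) : Bf
  | ex (t : Tm) (p : Bf) : Bf

def Bf.holds (x : List ℕ) : Bf → List ℕ → Prop
  | Bf.eq s t, e => s.ev x e = t.ev x e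
  | Bf.not p, e => ¬ p.holds x e
  | Bf.and p q, e => p.holds x e ∧ q.holds x e
  | Bf.imp p q, e => p.holds x e → q.holds x e
  | Bf.all t p, e => ∀ z < t.ev x e, p.holds x (e ++ [z])
  | Bf.ex t p, e => ∃ z < t.ev x e, p.holds x (e ++ [z])

open Primrec

theorem primrec_pow : Primrec₂ (fun a b : ℕ => a ^ b) :=
  Primrec₂.unpaired'.1 Nat.Primrec.pow

theorem Tm.primrec (t : Tm) : Primrec (fun p : List ℕ × List ℕ => t.ev p.1 p.2) := by
  induction t with
  | v i => exact (Primrec.list_getD 0).comp Primrec.snd (Primrec.const i)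
  | c k => exact Primrec.const k
  | inp t ih => exact (Primrec.list_getD 0).comp Primrec.fst ih
  | add s t ih1 ih2 => exact Primrec.nat_add.comp ih1 ih2
  | mul s t ih1 ih2 => exact Primrec.nat_mul.comp ih1 ih2
  | pow s t ih1 ih2 => exact primrec_pow.comp ih1 ih2
  | div s t ih1 ih2 => exact Primrec.nat_div.comp ih1 ih2
  | mod s t ih1 ih2 => exact Primrec.nat_mod.comp ih1 ih2

theorem forall_lt' {β : Type} [Primcodable β] {R : ℕ → β → Prop} (hf : PrimrecRel R) :
    PrimrecRel fun (n : ℕ) (y : β) => ∀ x < n, R x y :=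
  (hf.forall_mem_list.comp (Primrec.list_range.comp Primrec.fst) Primrec.snd).of_eq (by simp)

theorem exists_lt' {β : Type} [Primcodable β] {R : ℕ → β → Prop} (hf : PrimrecRel R) :
    PrimrecRel fun (n : ℕ) (y : β) => ∃ x < n, R x y :=
  (hf.exists_mem_list.comp (Primrec.list_range.comp Primrec.fst) Primrec.snd).of_eq (by simp)

theorem Bf.primrec (p : Bf) : PrimrecPred (fun q : List ℕ × List ℕ => p.holds q.1 q.2) := by
  induction p with
  | eq s t => exact Primrec.eq.comp s.primrec t.primrec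
  | not p ih => exact ih.not
  | and p q ih1 ih2 => exact ih1.and ih2
  | imp p q ih1 ih2 => exact (ih1.not.or ih2).of_eq fun x => imp_iff_not_or.symm
  | all t p ih =>
    have h1 : PrimrecRel (fun (z : ℕ) (q : List ℕ × List ℕ) => p.holds q.1 (q.2 ++ [z])) :=
      ih.comp ((Primrec.fst.comp Primrec.snd).pair
        (Primrec.list_concat.comp (Primrec.snd.comp Primrec.snd) Primrec.fst))
    exact ((forall_lt' h1).comp t.primrec Primrec.id)
  | ex t p ih =>
    have h1 : PrimrecRel (fun (z : ℕ) (q : List ℕ × List ℕ) => p.holds q.1 (q.2 ++ [z])) :=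
      ih.comp ((Primrec.fst.comp Primrec.snd).pair
        (Primrec.list_concat.comp (Primrec.snd.comp Primrec.snd) Primrec.fst))
    exact ((exists_lt' h1).comp t.primrec Primrec.id)

theorem Bf.computable (p : Bf) :
    ∃ f : List ℕ → Bool, Computable f ∧ ∀ x, (f x = true ↔ p.holds x []) := by
  obtain ⟨inst, h⟩ := p.primrec.comp (Primrec.id.pair (Primrec.const ([] : List ℕ)))
  exact ⟨_, h.to_comp, fun x => by simp⟩

end Pool.Agent.H877R3.HSC
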