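import Pool.Agent.H877R3.HSC.Defs

/-!
# Raw algebras, validity of rules, diagrams
-/

set_option autoImplicit false

namespace Pool.Agent.H877R3.HSC

/-- An algebra in the signature of Heyting algebras. -/
structure RA (X : Type) where
  inf : X → X → X
  sup : X → X → X
  imp : X → X → X
  bot : X

namespace RA

variable {X Y Z : Type}

def top (R : RA X) : X := R.imp R.bot R.bot

def iff (R : RA X) (x y : X) : X := R.inf (R.imp x y) (R.imp y x)

def eval (R : RA X) (v : ℕ → X) : Fm → X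
  | Fm.var i => v i
  | Fm.bot => R.bot
  | Fm.and A B => R.inf (R.eval v A) (R.eval v B)
  | Fm.or A B => R.sup (R.eval v A) (R.eval v B)
  | Fm.imp A B => R.imp (R.eval v A) (R.eval v B)

/-- The raw algebra of a Heyting algebra. -/
def ofH (A : Type) [HeytingAlgebra A] : RA A := ⟨fun a b => a ⊓ b, fun a b => a ⊔ b,
  fun a b => a ⇨ b, ⊥⟩

theorem ofH_eval {A : Type} [HeytingAlgebra A] (v : ℕ → A) (φ : Fm) :
    (ofH A).eval v φ = φ.eval v := by
  induction φ with
  | var i => rfl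
  | bot => rfl
  | and A B hA hB => simp only [eval, Fm.eval, hA, hB]; rfl
  | or A B hA hB => simp only [eval, Fm.eval, hA, hB]; rfl
  | imp A B hA hB => simp only [eval, Fm.eval, hA, hB]; rfl

/-- The algebra of formulas. -/
def fm : RA Fm := ⟨Fm.and, Fm.or, Fm.imp, Fm.bot⟩

theorem fm_eval (σ : ℕ → Fm) (φ : Fm) : fm.eval σ φ = φ.subst σ := by
  induction φ with
  | var i => rfl
  | bot => rfl
  | and A B hA hB => simp only [eval, Fm.subst, hA, hB]; rfl
  | or A B hA hB => simp only [eval, Fm.subst, hA, hB]; rfl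
  | imp A B hA hB => simp only [eval, Fm.subst, hA, hB]; rfl

/-- Homomorphisms. -/
structure IsHom (R : RA X) (R' : RA Y) (h : X → Y) : Prop where
  inf : ∀ a b, h (R.inf a b) = R'.inf (h a) (h b)
  sup : ∀ a b, h (R.sup a b) = R'.sup (h a) (h b)
  imp : ∀ a b, h (R.imp a b) = R'.imp (h a) (h b)
  bot : h R.bot = R'.bot

theorem IsHom.comp {R : RA X} {R' : RA Y} {R'' : RA Z} {f : X → Y} {g : Y → Z}
    (hg : IsHom R' R'' g) (hf : IsHom R R' f) : IsHom R R'' (fun x => g (f x)) :=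
  ⟨fun a b => by rw [hf.inf, hg.inf], fun a b => by rw [hf.sup, hg.sup],
    fun a b => by rw [hf.imp, hg.imp], by rw [hf.bot, hg.bot]⟩

theorem IsHom.top {R : RA X} {R' : RA Y} {f : X → Y} (hf : IsHom R R' f) : f R.top = R'.top := by
  unfold RA.top; rw [hf.imp, hf.bot]

theorem IsHom.iff {R : RA X} {R' : RA Y} {f : X → Y} (hf : IsHom R R' f) (x y : X) :
    f (R.iff x y) = R'.iff (f x) (f y) := by
  unfold RA.iff; rw [hf.inf, hf.imp, hf.imp]

theorem IsHom.eval {R : RA X} {R' : RA Y} {f : X → Y} (hf : IsHom R R' f) (v : ℕ → X)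
    (φ : Fm) : f (R.eval v φ) = R'.eval (fun i => f (v i)) φ := by
  induction φ with
  | var i => rfl
  | bot => exact hf.bot
  | and A B hA hB => simp only [RA.eval, hf.inf, hA, hB]
  | or A B hA hB => simp only [RA.eval, hf.sup, hA, hB]
  | imp A B hA hB => simp only [RA.eval, hf.imp, hA, hB]

theorem isHom_eval (R : RA X) (v : ℕ → X) : IsHom fm R (R.eval v) :=
  ⟨fun _ _ => rfl, fun _ _ => rfl, fun _ _ => rfl, rfl⟩

theorem isHom_subst (σ : ℕ → Fm) : IsHom fm fm (Fm.subst σ) :=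
  ⟨fun _ _ => rfl, fun _ _ => rfl, fun _ _ => rfl, rfl⟩

theorem isHom_evalH {A : Type} [HeytingAlgebra A] (u : ℕ → A) : IsHom fm (ofH A) (Fm.eval u) :=
  ⟨fun _ _ => rfl, fun _ _ => rfl, fun _ _ => rfl, rfl⟩

theorem eval_subst (R : RA X) (v : ℕ → X) (σ : ℕ → Fm) (φ : Fm) :
    R.eval v (φ.subst σ) = R.eval (fun i => R.eval v (σ i)) φ := by
  rw [← fm_eval, (isHom_eval R v).eval]

/-- The rule `Γ / β` is valid. -/
def Valid (R : RA X) (Γ : Finset Fm) (β : Fm) : Prop :=
  ∀ v : ℕ → X, (∀ C ∈ Γ, R.eval v C = R.top) → R.eval v β = R.top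

/-- Two elements are equal iff their equivalence is the top. -/
structure Good (R : RA X) : Prop where
  refl : ∀ x, R.iff x x = R.top
  eq : ∀ x y, R.iff x y = R.top → x = y

theorem good_ofH (A : Type) [HeytingAlgebra A] : Good (ofH A) := by
  refine ⟨fun x => ?_, fun x y h => ?_⟩
  · simp [RA.iff, RA.top, ofH]
  · simp only [RA.iff, RA.top, ofH, himp_self] at h
    have h1 : x ⇨ y = ⊤ := top_unique (h ▸ inf_le_left)
    have h2 : y ⇨ x = ⊤ := top_unique (h ▸ inf_le_right)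
    exact le_antisymm (himp_eq_top_iff.1 h1) (himp_eq_top_iff.1 h2)

theorem ofH_top (A : Type) [HeytingAlgebra A] : (ofH A).top = ⊤ := by simp [RA.top, ofH]

/-- Homomorphisms to `R'` separate the points of `R`. -/
def Sep (R : RA X) (R' : RA Y) : Prop := ∀ x y, x ≠ y → ∃ h : X → Y, IsHom R R' h ∧ h x ≠ h y

theorem Sep.good {R : RA X} {R' : RA Y} (hs : Sep R R') (hg : Good R') : Good R := by
  refine ⟨fun x => ?_, fun x y h => ?_⟩
  · by_contra hne
    obtain ⟨f, hf, hne⟩ := hs _ _ hne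
    apply hne
    rw [hf.iff, hf.top, hg.refl]
  · by_contra hne
    obtain ⟨f, hf, hne⟩ := hs _ _ hne
    apply hne
    apply hg.eq
    rw [← hf.iff, h, hf.top]

theorem Sep.valid {R : RA X} {R' : RA Y} (hs : Sep R R') {Γ : Finset Fm} {β : Fm}
    (h : R'.Valid Γ β) : R.Valid Γ β := by
  intro v hv
  by_contra hne
  obtain ⟨f, hf, hne⟩ := hs _ _ hne
  apply hne
  rw [hf.eval, hf.top]
  apply h
  intro C hC
  rw [← hf.eval, hv C hC, hf.top]

end RA

open RA

/-- Homomorphisms to the free algebra of the variety generated by `A` separate the points. -/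
def SepF (A : Type) [HeytingAlgebra A] {X : Type} (R : RA X) : Prop :=
  ∀ x y, x ≠ y → ∃ ρ : X → Fm, (∀ u : ℕ → A, IsHom R (ofH A) (fun b => (ρ b).eval u)) ∧
    ∃ u : ℕ → A, (ρ x).eval u ≠ (ρ y).eval u

theorem SepF.sep {A : Type} [HeytingAlgebra A] {X : Type} {R : RA X} (h : SepF A R) :
    Sep R (ofH A) := by
  intro x y hxy
  obtain ⟨ρ, h1, u, h2⟩ := h x y hxy
  exact ⟨_, h1 u, h2⟩

theorem SepF.good {A : Type} [HeytingAlgebra A] {X : Type} {R : RA X} (h : SepF A R) : Good R :=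
  h.sep.good (good_ofH A)

/-- Equivalence of formulas, as a formula. -/
def Fm.iff (φ ψ : Fm) : Fm := Fm.and (Fm.imp φ ψ) (Fm.imp ψ φ)

theorem fm_iff (φ ψ : Fm) : RA.fm.iff φ ψ = Fm.iff φ ψ := rfl

theorem eval_iff {X : Type} (R : RA X) (v : ℕ → X) (φ ψ : Fm) :
    R.eval v (Fm.iff φ ψ) = R.iff (R.eval v φ) (R.eval v ψ) := rfl

theorem subst_iff (σ : ℕ → Fm) (φ ψ : Fm) :
    (Fm.iff φ ψ).subst σ = Fm.iff (φ.subst σ) (ψ.subst σ) := rfl

/-- The diagram of a finite algebra. -/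
def dg {m : ℕ} (R : RA (Fin m)) : Finset Fm :=
  (Finset.univ.image fun p : Fin m × Fin m =>
    Fm.iff (Fm.var (R.inf p.1 p.2)) (Fm.and (Fm.var p.1) (Fm.var p.2))) ∪
  (Finset.univ.image fun p : Fin m × Fin m =>
    Fm.iff (Fm.var (R.sup p.1 p.2)) (Fm.or (Fm.var p.1) (Fm.var p.2))) ∪
  (Finset.univ.image fun p : Fin m × Fin m =>
    Fm.iff (Fm.var (R.imp p.1 p.2)) (Fm.imp (Fm.var p.1) (Fm.var p.2))) ∪
  {Fm.iff (Fm.var R.bot) Fm.bot}

theorem forall_dg {m : ℕ} (R : RA (Fin m)) (P : Fm → Prop) :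
    (∀ C ∈ dg R, P C) ↔
      (∀ i j : Fin m, P (Fm.iff (Fm.var (R.inf i j)) (Fm.and (Fm.var i) (Fm.var j)))) ∧
      (∀ i j : Fin m, P (Fm.iff (Fm.var (R.sup i j)) (Fm.or (Fm.var i) (Fm.var j)))) ∧
      (∀ i j : Fin m, P (Fm.iff (Fm.var (R.imp i j)) (Fm.imp (Fm.var i) (Fm.var j)))) ∧
      P (Fm.iff (Fm.var R.bot) Fm.bot) := by
  constructor
  · intro h
    refine ⟨fun i j => h _ ?_, fun i j => h _ ?_, fun i j => h _ ?_, h _ ?_⟩ <;>
    simp only [dg, Finset.mem_union, Finset.mem_image, Finset.mem_univ, true_and,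
      Finset.mem_singleton, Prod.exists]
    · exact Or.inl (Or.inl (Or.inl ⟨i, j, rfl⟩))
    · exact Or.inl (Or.inl (Or.inr ⟨i, j, rfl⟩))
    · exact Or.inl (Or.inr ⟨i, j, rfl⟩)
    · exact Or.inr trivial
  · rintro ⟨h1, h2, h3, h4⟩ C hC
    simp only [dg, Finset.mem_union, Finset.mem_image, Finset.mem_univ, true_and,
      Finset.mem_singleton, Prod.exists] at hC
    rcases hC with ((⟨i, j, rfl⟩ | ⟨i, j, rfl⟩) | ⟨i, j, rfl⟩) | rfl
    · exact h1 i j
    · exact h2 i j
    · exact h3 i j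
    · exact h4

theorem dg_iff {m : ℕ} (R : RA (Fin m)) {Y : Type} {R' : RA Y} (hg : Good R') (w : ℕ → Y) :
    (∀ C ∈ dg R, R'.eval w C = R'.top) ↔ IsHom R R' (fun i => w i) := by
  rw [forall_dg]
  constructor
  · rintro ⟨h1, h2, h3, h4⟩
    exact ⟨fun a b => hg.eq _ _ (h1 a b), fun a b => hg.eq _ _ (h2 a b),
      fun a b => hg.eq _ _ (h3 a b), hg.eq _ _ h4⟩
  · rintro ⟨h1, h2, h3, h4⟩
    refine ⟨fun a b => ?_, fun a b => ?_, fun a b => ?_, ?_⟩ <;> rw [eval_iff]
    · have := h1 a b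
      simp only [RA.eval] at this ⊢
      rw [this, hg.refl]
    · have := h2 a b
      simp only [RA.eval] at this ⊢
      rw [this, hg.refl]
    · have := h3 a b
      simp only [RA.eval] at this ⊢
      rw [this, hg.refl]
    · simp only [RA.eval] at h4 ⊢
      rw [h4, hg.refl]

/-- The deductive system given by a set of finite rules with closure properties. -/
def ofRules (V : Finset Fm → Fm → Prop) (h1 : ∀ A, V {A} A)
    (h2 : ∀ Γ Δ A, (∀ B ∈ Δ, V Γ B) → V Δ A → V Γ A)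
    (h3 : ∀ Γ A (σ : ℕ → Fm), V Γ A → V (Γ.image (Fm.subst σ)) (A.subst σ))
    (h4 : ∀ Γ Δ A, Γ ⊆ Δ → V Γ A → V Δ A) : DedSys where
  der := fun Γ A => ∃ Δ : Finset Fm, (↑Δ : Set Fm) ⊆ Γ ∧ V Δ A
  ax := fun Γ A h => ⟨{A}, by simpa using h, h1 A⟩
  cut := by
    rintro Γ Δ A h ⟨Δ', h5, h6⟩
    choose! f hf using h
    refine ⟨Δ'.biUnion f, ?_, ?_⟩
    · intro C hC
      simp only [Finset.coe_biUnion, Set.mem_iUnion, Finset.mem_coe] at hC
      obtain ⟨B, hB, hC⟩ := hC
      exact (hf B (h5 hB)).1 hC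
    · refine h2 _ _ _ (fun B hB => ?_) h6
      exact h4 _ _ _ (Finset.subset_biUnion_of_mem f hB) (hf B (h5 hB)).2
  finitary := fun Γ A ⟨Δ, h1, h2⟩ => ⟨↑Δ, h1, Δ.finite_toSet, Δ, subset_rfl, h2⟩
  structural := by
    rintro Γ A σ ⟨Δ, h5, h6⟩
    refine ⟨Δ.image (Fm.subst σ), ?_, h3 _ _ _ h6⟩
    rw [Finset.coe_image]
    exact Set.image_mono h5

/-- The deductive system of two algebras. -/
def sys2 {X Y : Type} (B : RA X) (C : RA Y) : DedSys :=
  ofRules (fun Γ A => B.Valid Γ A ∧ C.Valid Γ A)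
    (fun A => ⟨fun v hv => hv A (by simp), fun v hv => hv A (by simp)⟩)
    (fun Γ Δ A h1 h2 => ⟨fun v hv => h2.1 v fun D hD => (h1 D hD).1 v hv,
      fun v hv => h2.2 v fun D hD => (h1 D hD).2 v hv⟩)
    (fun Γ A σ h => ⟨fun v hv => by
        rw [eval_subst]
        refine h.1 _ fun D hD => ?_
        rw [← eval_subst]
        exact hv _ (Finset.mem_image_of_mem _ hD), fun v hv => by
        rw [eval_subst]
        refine h.2 _ fun D hD => ?_
        rw [← eval_subst]
        exact hv _ (Finset.mem_image_of_mem _ hD)⟩)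
    (fun Γ Δ A h1 h2 => ⟨fun v hv => h2.1 v fun D hD => hv D (h1 hD),
      fun v hv => h2.2 v fun D hD => hv D (h1 hD)⟩)

section

variable {A : Type} [HeytingAlgebra A]

theorem logicSystem_theorems (φ : Fm) : (logicSystem A).der ∅ φ ↔ ∀ u : ℕ → A, φ.eval u = ⊤ := by
  constructor
  · intro h u
    change MPDer (logicOf A) ∅ φ at h
    induction h with
    | ax h => exact h u
    | hyp h => exact absurd h (Set.notMem_empty _)
    | @mp C D _ _ h1 h2 =>
      have h3 : C.eval u ⇨ D.eval u = ⊤ := h2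
      rw [himp_eq_top_iff, h1] at h3
      exact top_unique h3
  · intro h
    exact MPDer.ax h

/-- Rules admissible in the logic of `A` are valid in all algebras separated by the free
algebra. -/
theorem SepF.valid {X : Type} {R : RA X} (hR : SepF A R) {Γ : Finset Fm} {β : Fm}
    (h : (logicSystem A).Admissible Γ β) : R.Valid Γ β := by
  intro v hv
  by_contra hne
  obtain ⟨ρ, h1, u, h2⟩ := hR _ _ hne
  apply h2
  have key : ∀ (u : ℕ → A) (φ : Fm), (φ.subst (fun i => ρ (v i))).eval u =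
      (ρ (R.eval v φ)).eval u := by
    intro u φ
    rw [(h1 u).eval, ofH_eval, Fm.eval_subst]
  rw [← key]
  have h3 := h (fun i => ρ (v i)) (fun C hC => by
    rw [logicSystem_theorems]
    intro u'
    rw [key, hv C hC, (h1 u').top, ofH_top])
  rw [logicSystem_theorems] at h3
  rw [h3, (h1 u).top, ofH_top]

theorem sep_of_hsc (hS : (logicSystem A).completion.HereditarilyStructurallyComplete)
    {m l : ℕ} (B : RA (Fin m)) (C : RA (Fin l)) (hB : SepF A B) (hC : SepF A C)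
    (g : Fin l → Fin m) (gs : Function.Surjective g) (hg : IsHom C B g) : Sep B C := by
  intro x y hxy
  by_contra hno
  push Not at hno
  have hext : (sys2 B C).Extends (logicSystem A).completion := by
    rintro Γ β ⟨Δ, h1, h2⟩
    exact ⟨Δ, h1, hB.valid h2, hC.valid h2⟩
  have hCB : ∀ φ : Fm, C.Valid ∅ φ → B.Valid ∅ φ := by
    intro φ h v _
    choose w hw using gs
    have := h (fun i => w (v i)) (by simp)
    have h2 : B.eval v φ = g (C.eval (fun i => w (v i)) φ) := by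
      rw [hg.eval]; simp only [hw]
    rw [h2, this, hg.top]
  have hthm : ∀ φ : Fm, (sys2 B C).der ∅ φ ↔ C.Valid ∅ φ := by
    intro φ
    constructor
    · rintro ⟨Δ, h1, h2, h3⟩
      have : Δ = ∅ := by simpa using h1
      subst this
      exact h3
    · intro h
      exact ⟨∅, by simp, hCB φ h, h⟩
  have hadm : (sys2 B C).Admissible (dg B) (Fm.iff (Fm.var x) (Fm.var y)) := by
    intro σ hσ
    rw [hthm]
    intro w _
    rw [eval_subst, eval_iff]
    have hhom : IsHom B C (fun i => C.eval w (σ i)) := by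
      refine (dg_iff B hC.good (fun i => C.eval w (σ i))).1 fun D hD => ?_
      rw [← eval_subst]
      exact (hthm _).1 (hσ D hD) w (by simp)
    have := hno _ hhom
    simp only [RA.eval]
    rw [this, hC.good.refl]
  obtain ⟨Δ, h1, h2, _⟩ := hS _ hext _ _ hadm
  have hm : 0 < m := lt_of_le_of_lt (Nat.zero_le _) x.2
  have h3 := h2 (fun i => if h : i < m then ⟨i, h⟩ else ⟨0, hm⟩) (fun D hD => by
    refine (dg_iff B hB.good _).2 ?_ D (by exact_mod_cast h1 hD)
    have : (fun i : Fin m => (if h : (i : ℕ) < m then (⟨i, h⟩ : Fin m) else ⟨0, hm⟩)) =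
        fun i => i := by
      funext i; simp
    rw [this]
    exact ⟨fun _ _ => rfl, fun _ _ => rfl, fun _ _ => rfl, rfl⟩)
  rw [eval_iff] at h3
  apply hxy
  have := hB.good.eq _ _ h3
  simpa [RA.eval] using this

end

end Pool.Agent.H877R3.HSC
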