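import Pool.Agent.H877R3.HSC.Core1

/-!
# Lindenbaum algebras
-/

set_option autoImplicit false

namespace Pool.Agent.H877R3.HSC

open RA

/-- Quotients of the formula algebra by congruences of finite index. -/
theorem quot_exists (r : Fm → Fm → Prop) (hr : Equivalence r)
    (hand : ∀ a a' b b', r a a' → r b b' → r (Fm.and a b) (Fm.and a' b'))
    (hor : ∀ a a' b b', r a a' → r b b' → r (Fm.or a b) (Fm.or a' b'))
    (himp : ∀ a a' b b', r a a' → r b b' → r (Fm.imp a b) (Fm.imp a' b'))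
    {K : Type} [Fintype K] (g : Fm → K) (hg : ∀ φ ψ, g φ = g ψ → r φ ψ) :
    ∃ (l : ℕ) (R : RA (Fin l)) (cl : Fm → Fin l), l ≤ Fintype.card K ∧
      Function.Surjective cl ∧ IsHom fm R cl ∧ ∀ φ ψ, cl φ = cl ψ ↔ r φ ψ := by
  let s : Setoid Fm := ⟨r, hr⟩
  have hinj : Function.Injective (fun q : Quotient s => g q.out) := by
    intro q q' h
    have h1 : r q.out q'.out := hg _ _ h
    have h2 : (Quotient.mk s q.out) = Quotient.mk s q'.out := Quotient.sound h1
    simpa using h2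
  have : Finite (Quotient s) := Finite.of_injective _ hinj
  have hcard : Nat.card (Quotient s) ≤ Fintype.card K := by
    rw [← Nat.card_eq_fintype_card]
    exact Nat.card_le_card_of_injective _ hinj
  let e : Quotient s ≃ Fin (Nat.card (Quotient s)) := Finite.equivFin _
  let cl : Fm → Fin (Nat.card (Quotient s)) := fun φ => e (Quotient.mk s φ)
  let rep : Fin (Nat.card (Quotient s)) → Fm := fun i => (e.symm i).out
  have hrep : ∀ i, cl (rep i) = i := by
    intro i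
    simp only [cl, rep, Quotient.out_eq, Equiv.apply_symm_apply]
  have hcl : ∀ φ ψ, cl φ = cl ψ ↔ r φ ψ := by
    intro φ ψ
    constructor
    · intro h
      exact Quotient.exact (e.injective h)
    · intro h
      exact congrArg e (Quotient.sound h)
  have hrr : ∀ φ, r φ (rep (cl φ)) := fun φ => (hcl _ _).1 (hrep _).symm
  refine ⟨Nat.card (Quotient s), ⟨fun i j => cl (Fm.and (rep i) (rep j)),
    fun i j => cl (Fm.or (rep i) (rep j)), fun i j => cl (Fm.imp (rep i) (rep j)), cl Fm.bot⟩,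
    cl, hcard, fun i => ⟨rep i, hrep i⟩, ⟨?_, ?_, ?_, ?_⟩, hcl⟩
  · intro a b
    exact (hcl _ _).2 (hand _ _ _ _ (hrr a) (hrr b))
  · intro a b
    exact (hcl _ _).2 (hor _ _ _ _ (hrr a) (hrr b))
  · intro a b
    exact (hcl _ _).2 (himp _ _ _ _ (hrr a) (hrr b))
  · rfl

section heyt

variable {A : Type} [HeytingAlgebra A]

theorem le_biimp (p x y : A) : p ≤ (x ⇨ y) ⊓ (y ⇨ x) ↔ p ⊓ x = p ⊓ y := by
  rw [le_inf_iff, le_himp_iff, le_himp_iff]
  constructor
  · rintro ⟨h1, h2⟩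
    exact le_antisymm (le_inf inf_le_left h1) (le_inf inf_le_left h2)
  · intro h
    exact ⟨h ▸ inf_le_right, h ▸ inf_le_right⟩

theorem inf_himp_congr {p a a' b b' : A} (h1 : p ⊓ a = p ⊓ a') (h2 : p ⊓ b = p ⊓ b') :
    p ⊓ (a ⇨ b) = p ⊓ (a' ⇨ b') := by
  have key : ∀ a a' b b' : A, p ⊓ a = p ⊓ a' → p ⊓ b = p ⊓ b' → p ⊓ (a ⇨ b) ≤ p ⊓ (a' ⇨ b') := by
    intro a a' b b' h1 h2
    refine le_inf inf_le_left ?_
    rw [le_himp_iff]
    have h3 : p ⊓ (a ⇨ b) ⊓ a' ≤ p ⊓ b := by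
      refine le_inf (inf_le_left.trans inf_le_left) ?_
      have h4 : p ⊓ (a ⇨ b) ⊓ a' ≤ a := by
        have : p ⊓ (a ⇨ b) ⊓ a' ≤ p ⊓ a' := inf_le_inf_right _ inf_le_left
        exact this.trans (h1 ▸ inf_le_right)
      have h5 : p ⊓ (a ⇨ b) ⊓ a' ≤ (a ⇨ b) ⊓ a := le_inf (inf_le_left.trans inf_le_right) h4
      exact h5.trans himp_inf_le
    exact h3.trans (h2 ▸ inf_le_right)
  exact le_antisymm (key _ _ _ _ h1 h2) (key _ _ _ _ h1.symm h2.symm)

end heyt

section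

variable {A : Type} [HeytingAlgebra A] {S : DedSys} (hS : S.Extends (logicSystem A).completion)

include hS

theorem der_of_valid (Γ : Set Fm) (θ : Fm) (h : ∀ u : ℕ → A, θ.eval u = ⊤) : S.der Γ θ := by
  have h1 : (logicSystem A).der ∅ θ := (logicSystem_theorems θ).2 h
  exact S.mono (Set.empty_subset Γ) (hS _ _ ((logicSystem A).completion_extends _ _ h1))

theorem der_mp (Γ : Set Fm) (a b : Fm) (h1 : S.der Γ a) (h2 : S.der Γ (Fm.imp a b)) :
    S.der Γ b := by
  have h3 : (logicSystem A).der {a, Fm.imp a b} b :=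
    MPDer.mp (A := a) (MPDer.hyp (Or.inl rfl)) (MPDer.hyp (Or.inr rfl))
  have h4 := hS _ _ ((logicSystem A).completion_extends _ _ h3)
  refine S.cut _ _ _ ?_ h4
  intro B hB
  simp only [Set.mem_insert_iff, Set.mem_singleton_iff] at hB
  rcases hB with rfl | rfl
  · exact h1
  · exact h2

/-- If `a` entails `b` in `A`. -/
theorem der_of_le (Γ : Set Fm) (a b : Fm) (h1 : S.der Γ a)
    (h : ∀ u : ℕ → A, a.eval u ≤ b.eval u) : S.der Γ b :=
  der_mp hS Γ a b h1 (der_of_valid hS Γ _ fun u => himp_eq_top_iff.2 (h u))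

theorem der_of_le₂ (Γ : Set Fm) (a b c : Fm) (h1 : S.der Γ a) (h2 : S.der Γ b)
    (h : ∀ u : ℕ → A, a.eval u ⊓ b.eval u ≤ c.eval u) : S.der Γ c := by
  refine der_mp hS Γ b c h2 (der_of_le hS Γ a _ h1 fun u => ?_)
  exact le_himp_iff.2 (h u)

theorem der_iff_refl (Γ : Set Fm) (a : Fm) : S.der Γ (Fm.iff a a) :=
  der_of_valid hS Γ _ fun u => by simp [Fm.iff, Fm.eval]

theorem der_iff_symm (Γ : Set Fm) (a b : Fm) (h : S.der Γ (Fm.iff a b)) :
    S.der Γ (Fm.iff b a) :=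
  der_of_le hS Γ _ _ h fun u => by simp only [Fm.iff, Fm.eval]; rw [inf_comm]

theorem der_iff_trans (Γ : Set Fm) (a b c : Fm) (h : S.der Γ (Fm.iff a b))
    (h' : S.der Γ (Fm.iff b c)) : S.der Γ (Fm.iff a c) :=
  der_of_le₂ hS Γ _ _ _ h h' fun u => by
    simp only [Fm.iff, Fm.eval]
    generalize a.eval u = a, b.eval u = b, c.eval u = c
    rw [le_biimp]
    set p := (a ⇨ b) ⊓ (b ⇨ a) ⊓ ((b ⇨ c) ⊓ (c ⇨ b)) with hp
    have h1 : p ⊓ a = p ⊓ b := (le_biimp _ _ _).1 inf_le_left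
    have h2 : p ⊓ b = p ⊓ c := (le_biimp _ _ _).1 inf_le_right
    exact h1.trans h2

theorem der_iff_and (Γ : Set Fm) (a a' b b' : Fm) (h : S.der Γ (Fm.iff a a'))
    (h' : S.der Γ (Fm.iff b b')) : S.der Γ (Fm.iff (Fm.and a b) (Fm.and a' b')) :=
  der_of_le₂ hS Γ _ _ _ h h' fun u => by
    simp only [Fm.iff, Fm.eval]
    generalize a.eval u = a, b.eval u = b, a'.eval u = a', b'.eval u = b'
    rw [le_biimp]
    set p := (a ⇨ a') ⊓ (a' ⇨ a) ⊓ ((b ⇨ b') ⊓ (b' ⇨ b)) with hp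
    have h1 : p ⊓ a = p ⊓ a' := (le_biimp _ _ _).1 inf_le_left
    have h2 : p ⊓ b = p ⊓ b' := (le_biimp _ _ _).1 inf_le_right
    rw [inf_inf_distrib_left, h1, h2, ← inf_inf_distrib_left]

theorem der_iff_or (Γ : Set Fm) (a a' b b' : Fm) (h : S.der Γ (Fm.iff a a'))
    (h' : S.der Γ (Fm.iff b b')) : S.der Γ (Fm.iff (Fm.or a b) (Fm.or a' b')) :=
  der_of_le₂ hS Γ _ _ _ h h' fun u => by
    simp only [Fm.iff, Fm.eval]
    generalize a.eval u = a, b.eval u = b, a'.eval u = a', b'.eval u = b'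
    rw [le_biimp]
    set p := (a ⇨ a') ⊓ (a' ⇨ a) ⊓ ((b ⇨ b') ⊓ (b' ⇨ b)) with hp
    have h1 : p ⊓ a = p ⊓ a' := (le_biimp _ _ _).1 inf_le_left
    have h2 : p ⊓ b = p ⊓ b' := (le_biimp _ _ _).1 inf_le_right
    rw [inf_sup_left, h1, h2, ← inf_sup_left]

theorem der_iff_imp (Γ : Set Fm) (a a' b b' : Fm) (h : S.der Γ (Fm.iff a a'))
    (h' : S.der Γ (Fm.iff b b')) : S.der Γ (Fm.iff (Fm.imp a b) (Fm.imp a' b')) :=
  der_of_le₂ hS Γ _ _ _ h h' fun u => by
    simp only [Fm.iff, Fm.eval]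
    generalize a.eval u = a, b.eval u = b, a'.eval u = a', b'.eval u = b'
    rw [le_biimp]
    set p := (a ⇨ a') ⊓ (a' ⇨ a) ⊓ ((b ⇨ b') ⊓ (b' ⇨ b)) with hp
    have h1 : p ⊓ a = p ⊓ a' := (le_biimp _ _ _).1 inf_le_left
    have h2 : p ⊓ b = p ⊓ b' := (le_biimp _ _ _).1 inf_le_right
    exact inf_himp_congr h1 h2

/-- The formula `⊥ → ⊥` -/
theorem der_iff_top (Γ : Set Fm) (a : Fm) :
    S.der Γ (Fm.iff a (Fm.imp Fm.bot Fm.bot)) ↔ S.der Γ a := by
  constructor
  · intro h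
    exact der_of_le hS Γ _ _ h fun u => by simp [Fm.iff, Fm.eval]
  · intro h
    exact der_of_le hS Γ _ _ h fun u => by simp [Fm.iff, Fm.eval]

/-- Lindenbaum algebras. -/
theorem LT_exists [Fintype A] (Γ : Set Fm) (τ : ℕ → Fm) (m : ℕ)
    (hτ : ∀ j, m ≤ j → τ j = Fm.bot) :
    ∃ (l : ℕ) (R : RA (Fin l)) (cl : Fm → Fin l),
      l ≤ (Fintype.card A) ^ ((Fintype.card A) ^ m) ∧
      Function.Surjective cl ∧ IsHom fm R cl ∧
      ∀ φ ψ, cl φ = cl ψ ↔ S.der Γ ((Fm.iff φ ψ).subst τ) := by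
  classical
  have hK : Fintype.card ((Fin m → A) → A) = (Fintype.card A) ^ ((Fintype.card A) ^ m) := by
    simp [Fintype.card_pi]
  rw [← hK]
  refine quot_exists (fun φ ψ => S.der Γ ((Fm.iff φ ψ).subst τ)) ⟨?_, ?_, ?_⟩ ?_ ?_ ?_
    (fun φ v => φ.eval (fun i => if h : i < m then v ⟨i, h⟩ else ⊥)) ?_
  · intro a
    exact der_iff_refl hS Γ _
  · intro a b h
    exact der_iff_symm hS Γ _ _ h
  · intro a b c h h'
    exact der_iff_trans hS Γ _ _ _ h h'
  · intro a a' b b' h h'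
    exact der_iff_and hS Γ _ _ _ _ h h'
  · intro a a' b b' h h'
    exact der_iff_or hS Γ _ _ _ _ h h'
  · intro a a' b b' h h'
    exact der_iff_imp hS Γ _ _ _ _ h h'
  · intro φ ψ h
    have h1 : ∀ u : ℕ → A,
        ((Fm.iff φ ψ).subst (fun i => if i < m then Fm.var i else Fm.bot)).eval u = ⊤ := by
      intro u
      rw [Fm.eval_subst]
      have h2 := congrFun h (fun i => u i)
      have h3 : (fun i => (if i < m then Fm.var i else Fm.bot : Fm).eval u) =
          (fun i => if h : i < m then (fun i : Fin m => u i) ⟨i, h⟩ else ⊥) := by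
        funext i
        split_ifs <;> rfl
      rw [h3]
      simp only [Fm.iff, Fm.eval]
      rw [h2]
      simp
    have h2 : S.der ∅ _ := der_of_valid hS ∅ _ h1
    have h3 := S.structural _ _ τ h2
    rw [Set.image_empty, Fm.subst_subst] at h3
    have h4 : (fun i => (if i < m then Fm.var i else Fm.bot : Fm).subst τ) = τ := by
      funext i
      split_ifs with hi
      · rfl
      · rw [hτ i (by omega)]; rfl
    rw [h4] at h3
    exact S.mono (Set.empty_subset _) h3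

/-- Lindenbaum algebras are separated by the free algebra. -/
theorem LT_sepF (Γ : Set Fm) (τ : ℕ → Fm) {l : ℕ} {R : RA (Fin l)} {cl : Fm → Fin l}
    (hs : Function.Surjective cl) (hh : IsHom fm R cl)
    (hcl : ∀ φ ψ, cl φ = cl ψ ↔ S.der Γ ((Fm.iff φ ψ).subst τ)) : SepF A R := by
  intro x y hxy
  by_contra hno
  push Not at hno
  choose rep hrep using hs
  have hadm : (logicSystem A).Admissible (dg R) (Fm.iff (Fm.var x) (Fm.var y)) := by
    intro σ hσ
    rw [logicSystem_theorems]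
    intro u
    have hhom : ∀ u : ℕ → A, IsHom R (ofH A) (fun b => ((fun i : Fin l => σ i) b).eval u) := by
      intro u
      refine (dg_iff R (good_ofH A) (fun i => (σ i).eval u)).1 fun D hD => ?_
      have := (logicSystem_theorems _).1 (hσ D hD) u
      rw [Fm.eval_subst] at this
      rw [ofH_eval, this, ofH_top]
    have := hno (fun i => σ i) hhom u
    rw [subst_iff]
    simp only [Fm.iff, Fm.eval, Fm.subst]
    rw [this]
    simp
  have h1 : S.der (↑(dg R)) (Fm.iff (Fm.var x) (Fm.var y)) := hS _ _ ⟨dg R, subset_rfl, hadm⟩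
  have h2 := S.structural _ _ (fun i => if h : i < l then (rep ⟨i, h⟩).subst τ else Fm.bot) h1
  have h3 : S.der Γ _ := S.cut Γ _ _ (by
    rintro _ ⟨D, hD, rfl⟩
    have hD' : D ∈ dg R := by exact_mod_cast hD
    clear hD
    revert D
    rw [forall_dg]
    refine ⟨fun i j => ?_, fun i j => ?_, fun i j => ?_, ?_⟩
    · have : S.der Γ ((Fm.iff (rep (R.inf i j)) (Fm.and (rep i) (rep j))).subst τ) := by
        rw [← hcl, hrep, show Fm.and (rep i) (rep j) = fm.inf (rep i) (rep j) from rfl, hh.inf,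
          hrep, hrep]
      simpa [Fm.iff, Fm.subst] using this
    · have : S.der Γ ((Fm.iff (rep (R.sup i j)) (Fm.or (rep i) (rep j))).subst τ) := by
        rw [← hcl, hrep, show Fm.or (rep i) (rep j) = fm.sup (rep i) (rep j) from rfl, hh.sup,
          hrep, hrep]
      simpa [Fm.iff, Fm.subst] using this
    · have : S.der Γ ((Fm.iff (rep (R.imp i j)) (Fm.imp (rep i) (rep j))).subst τ) := by
        rw [← hcl, hrep, show Fm.imp (rep i) (rep j) = fm.imp (rep i) (rep j) from rfl, hh.imp,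
          hrep, hrep]
      simpa [Fm.iff, Fm.subst] using this
    · have : S.der Γ ((Fm.iff (rep R.bot) Fm.bot).subst τ) := by
        rw [← hcl, hrep, show Fm.bot = fm.bot from rfl, hh.bot]
      simpa [Fm.iff, Fm.subst] using this) h2
  apply hxy
  rw [← hrep x, ← hrep y, hcl]
  simpa [Fm.iff, Fm.subst] using h3

theorem LT_top (Γ : Set Fm) (τ : ℕ → Fm) {l : ℕ} {R : RA (Fin l)} {cl : Fm → Fin l}
    (hh : IsHom fm R cl)
    (hcl : ∀ φ ψ, cl φ = cl ψ ↔ S.der Γ ((Fm.iff φ ψ).subst τ)) (φ : Fm) :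
    cl φ = R.top ↔ S.der Γ (φ.subst τ) := by
  rw [← hh.top, hcl, ← der_iff_top hS Γ (φ.subst τ)]
  rfl

/-- Theorems of `S` are valid in Lindenbaum algebras. -/
theorem LT_valid (Γ : Set Fm) (τ : ℕ → Fm) {l : ℕ} {R : RA (Fin l)} {cl : Fm → Fin l}
    (hs : Function.Surjective cl) (hh : IsHom fm R cl)
    (hcl : ∀ φ ψ, cl φ = cl ψ ↔ S.der Γ ((Fm.iff φ ψ).subst τ)) (Δ : Finset Fm) (δ : Fm)
    (h : ∀ ρ : ℕ → Fm, (∀ C ∈ Δ, S.der Γ ((C.subst ρ).subst τ)) → S.der Γ ((δ.subst ρ).subst τ)) :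
    R.Valid Δ δ := by
  choose rep hrep using hs
  have key : ∀ (w : ℕ → Fin l) (φ : Fm), R.eval w φ = cl (φ.subst (fun i => rep (w i))) := by
    intro w φ
    rw [← fm_eval, hh.eval]
    simp only [hrep]
  intro w hw
  rw [key, LT_top hS Γ τ hh hcl]
  apply h
  intro C hC
  rw [← LT_top hS Γ τ hh hcl, ← key]
  exact hw C hC

end

end Pool.Agent.H877R3.HSC
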