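import Pool.Agent.H877R3.HSC.Core2

/-!
# The finite criterion for hereditary structural completeness
-/

set_option autoImplicit false

namespace Pool.Agent.H877R3.HSC

open RA

/-- Truncation of variables. -/
def trunc (k : ℕ) : ℕ → Fm := fun i => if i < k then Fm.var i else Fm.bot

theorem trunc_trunc (k : ℕ) (φ : Fm) : (φ.subst (trunc k)).subst (trunc k) = φ.subst (trunc k) := by
  rw [Fm.subst_subst]
  congr 1
  funext i
  unfold trunc
  split_ifs with h
  · simp [Fm.subst, h]
  · rfl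

theorem exists_bound (φ : Fm) : ∃ k, ∀ k' ≥ k, φ.subst (trunc k') = φ := by
  induction φ with
  | var i => exact ⟨i + 1, fun k' h => by simp [Fm.subst, trunc]; omega⟩
  | bot => exact ⟨0, fun _ _ => rfl⟩
  | and A B hA hB =>
    obtain ⟨a, ha⟩ := hA
    obtain ⟨b, hb⟩ := hB
    exact ⟨max a b, fun k' h => by
      simp only [Fm.subst]; rw [ha k' (le_trans (le_max_left _ _) h),
        hb k' (le_trans (le_max_right _ _) h)]⟩
  | or A B hA hB =>
    obtain ⟨a, ha⟩ := hA
    obtain ⟨b, hb⟩ := hB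
    exact ⟨max a b, fun k' h => by
      simp only [Fm.subst]; rw [ha k' (le_trans (le_max_left _ _) h),
        hb k' (le_trans (le_max_right _ _) h)]⟩
  | imp A B hA hB =>
    obtain ⟨a, ha⟩ := hA
    obtain ⟨b, hb⟩ := hB
    exact ⟨max a b, fun k' h => by
      simp only [Fm.subst]; rw [ha k' (le_trans (le_max_left _ _) h),
        hb k' (le_trans (le_max_right _ _) h)]⟩

theorem exists_bound_finset (Γ : Finset Fm) : ∃ k, ∀ k' ≥ k, ∀ φ ∈ Γ, φ.subst (trunc k') = φ := by
  classical
  induction Γ using Finset.induction_on with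
  | empty => exact ⟨0, by simp⟩
  | insert a s _ ih =>
    obtain ⟨k1, h1⟩ := ih
    obtain ⟨k2, h2⟩ := exists_bound a
    refine ⟨max k1 k2, fun k' h φ hφ => ?_⟩
    rcases Finset.mem_insert.1 hφ with rfl | hφ
    · exact h2 k' (le_trans (le_max_right _ _) h)
    · exact h1 k' (le_trans (le_max_left _ _) h) φ hφ

/-- The finite criterion, for algebras of size at most `N₁` and `N₂`. -/
def Crit (A : Type) [HeytingAlgebra A] (N₁ N₂ : ℕ) : Prop :=
  ∀ m ≤ N₁, ∀ l ≤ N₂, ∀ (B : RA (Fin m)) (C : RA (Fin l)), SepF A B → SepF A C →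
    (∃ g : Fin l → Fin m, Function.Surjective g ∧ IsHom C B g) → Sep B C

section

variable {A : Type} [HeytingAlgebra A] {n : ℕ} (e : A ≃ Fin n)

theorem crit_of_hsc (hS : (logicSystem A).completion.HereditarilyStructurallyComplete)
    (N₁ N₂ : ℕ) : Crit A N₁ N₂ := by
  intro m _ l _ B C hB hC ⟨g, gs, hg⟩
  exact sep_of_hsc hS B C hB hC g gs hg

include e in
theorem hsc_of_crit (hcrit : Crit A (n ^ (n ^ n)) (n ^ (n ^ (n ^ (n ^ n))))) :
    (logicSystem A).completion.HereditarilyStructurallyComplete := by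
  classical
  let _ : Fintype A := Fintype.ofEquiv _ e.symm
  have hcard : Fintype.card A = n := by
    rw [Fintype.card_congr e, Fintype.card_fin]
  have hn : 0 < n := lt_of_le_of_lt (Nat.zero_le _) (e ⊥).2
  intro S hS Γ β hadm
  by_contra hno
  -- step 1
  obtain ⟨k1, hk1⟩ := exists_bound_finset Γ
  obtain ⟨k2, hk2⟩ := exists_bound β
  obtain ⟨k, hk, hkβ⟩ : ∃ k, (∀ φ ∈ Γ, φ.subst (trunc k) = φ) ∧ β.subst (trunc k) = β :=
    ⟨max k1 k2, hk1 _ (le_max_left _ _), hk2 _ (le_max_right _ _)⟩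
  -- step 2
  obtain ⟨l', R', cl', -, hs', hh', hcl'⟩ := LT_exists hS (↑Γ) (trunc k) k
    (fun j hj => by simp [trunc]; omega)
  have hsep' := LT_sepF hS _ _ hs' hh' hcl'
  have htop' := LT_top hS _ _ hh' hcl'
  have hβ' : cl' β ≠ R'.top := by
    rw [Ne, htop', hkβ]; exact hno
  obtain ⟨ρ, hρ, u0, hu0⟩ := hsep' _ _ hβ'
  -- step 4: identification of variables
  let ρ' : Fin l' → Fm := fun b => (ρ b).subst (fun i => Fm.var (e (u0 i)))
  have hρ'eval : ∀ (u : ℕ → A) b, (ρ' b).eval u = (ρ b).eval (fun i => u (e (u0 i))) := by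
    intro u b
    simp only [ρ', Fm.eval_subst]
    rfl
  have hρ' : ∀ u : ℕ → A, IsHom R' (ofH A) (fun b => (ρ' b).eval u) := by
    intro u
    simp only [hρ'eval]
    exact hρ _
  have hρ'loc : ∀ (u u' : ℕ → A), (∀ i < n, u i = u' i) → ∀ b, (ρ' b).eval u = (ρ' b).eval u' := by
    intro u u' h b
    rw [hρ'eval, hρ'eval]
    congr 1
    funext i
    exact h _ (e (u0 i)).2
  let uid : ℕ → A := fun i => if h : i < n then e.symm ⟨i, h⟩ else ⊥
  have huid : ∀ b, (ρ' b).eval uid = (ρ b).eval u0 := by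
    intro b
    rw [hρ'eval]
    congr 1
    funext i
    simp [uid]
  -- the algebra B
  have hcompB : ∀ u : ℕ → A, IsHom fm (ofH A) (fun φ => (ρ' (cl' φ)).eval u) := fun u =>
    (hρ' u).comp hh'
  obtain ⟨m, B, clB, hmle, hsB, hhB, hclB⟩ := quot_exists
    (fun φ ψ => ∀ u : ℕ → A, (ρ' (cl' φ)).eval u = (ρ' (cl' ψ)).eval u)
    ⟨fun _ _ => rfl, fun h u => (h u).symm, fun h h' u => (h u).trans (h' u)⟩
    (fun a a' b b' h h' u => by
      have h1 := (hcompB u).inf a b
      have h2 := (hcompB u).inf a' b'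
      change (ρ' (cl' (fm.inf a b))).eval u = (ρ' (cl' (fm.inf a' b'))).eval u
      rw [h1, h2, h u, h' u])
    (fun a a' b b' h h' u => by
      have h1 := (hcompB u).sup a b
      have h2 := (hcompB u).sup a' b'
      change (ρ' (cl' (fm.sup a b))).eval u = (ρ' (cl' (fm.sup a' b'))).eval u
      rw [h1, h2, h u, h' u])
    (fun a a' b b' h h' u => by
      have h1 := (hcompB u).imp a b
      have h2 := (hcompB u).imp a' b'
      change (ρ' (cl' (fm.imp a b))).eval u = (ρ' (cl' (fm.imp a' b'))).eval u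
      rw [h1, h2, h u, h' u])
    (K := (Fin n → A) → A)
    (fun φ v => (ρ' (cl' φ)).eval (fun i => if h : i < n then v ⟨i, h⟩ else ⊥))
    (fun φ ψ h u => by
      have h1 := congrFun h (fun i => u i)
      simp only at h1
      rw [hρ'loc u (fun i => if h : i < n then (fun i : Fin n => u i) ⟨i, h⟩ else ⊥)
        (fun i hi => by simp [hi]), hρ'loc u
        (fun i => if h : i < n then (fun i : Fin n => u i) ⟨i, h⟩ else ⊥)
        (fun i hi => by simp [hi])]
      exact h1)
  have hmle' : m ≤ n ^ (n ^ n) := by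
    refine hmle.trans ?_
    simp [hcard]
  choose repB hrepB using hsB
  have hrB : ∀ φ (u : ℕ → A), (ρ' (cl' (repB (clB φ)))).eval u = (ρ' (cl' φ)).eval u := fun φ =>
    (hclB _ _).1 (hrepB _)
  have hSepB : SepF A B := by
    intro x y hxy
    refine ⟨fun b => ρ' (cl' (repB b)), fun u => ⟨?_, ?_, ?_, ?_⟩, ?_⟩
    · intro a b
      have h1 : B.inf a b = clB (fm.inf (repB a) (repB b)) := by rw [hhB.inf, hrepB, hrepB]
      simp only
      rw [h1, hrB]
      exact (hcompB u).inf _ _
    · intro a b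
      have h1 : B.sup a b = clB (fm.sup (repB a) (repB b)) := by rw [hhB.sup, hrepB, hrepB]
      simp only
      rw [h1, hrB]
      exact (hcompB u).sup _ _
    · intro a b
      have h1 : B.imp a b = clB (fm.imp (repB a) (repB b)) := by rw [hhB.imp, hrepB, hrepB]
      simp only
      rw [h1, hrB]
      exact (hcompB u).imp _ _
    · have h1 : B.bot = clB fm.bot := by rw [hhB.bot]
      simp only
      rw [h1, hrB]
      exact (hcompB u).bot
    · by_contra hcon
      push Not at hcon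
      apply hxy
      rw [← hrepB x, ← hrepB y, hclB]
      exact hcon
  have hgoodB := hSepB.good
  -- step 5
  let τ : ℕ → Fm := fun j => if h : j < m then (repB ⟨j, h⟩).subst (trunc k) else Fm.bot
  have hττ : ∀ φ : Fm, (φ.subst τ).subst (trunc k) = φ.subst τ := by
    intro φ
    rw [Fm.subst_subst]
    congr 1
    funext i
    simp only [τ]
    split_ifs with h
    · exact trunc_trunc _ _
    · rfl
  obtain ⟨l2, R2, cl2, hl2, hs2, hh2, hcl2⟩ := LT_exists hS (↑Γ) τ m
    (fun j hj => by simp only [τ]; rw [dif_neg (by omega)])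
  have hsep2 := LT_sepF hS _ _ hs2 hh2 hcl2
  have hNN : n ^ (n ^ m) ≤ n ^ (n ^ (n ^ (n ^ n))) :=
    Nat.pow_le_pow_right hn (Nat.pow_le_pow_right hn hmle')
  have hcrit2 : Sep B R2 := by
    refine hcrit m hmle' l2 ((hl2.trans (by rw [hcard])).trans hNN) B R2 hSepB hsep2 ?_
    choose rep2 hrep2 using hs2
    have hwd : ∀ φ, clB ((rep2 (cl2 φ)).subst τ) = clB (φ.subst τ) := by
      intro φ
      have h1 : S.der (↑Γ) ((Fm.iff (rep2 (cl2 φ)) φ).subst τ) := by
        rw [← hcl2, hrep2]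
      have h2 : cl' ((rep2 (cl2 φ)).subst τ) = cl' (φ.subst τ) := by
        rw [hcl', ← subst_iff, hττ]; exact h1
      rw [hclB]
      intro u
      rw [h2]
    have hhomτ : IsHom fm B (fun φ => clB (φ.subst τ)) := hhB.comp (isHom_subst τ)
    refine ⟨fun x => clB ((rep2 x).subst τ), fun j => ⟨cl2 (Fm.var j), ?_⟩, ⟨?_, ?_, ?_, ?_⟩⟩
    · simp only
      rw [hwd]
      have h1 : (Fm.var (j : ℕ)).subst τ = (repB j).subst (trunc k) := by
        simp [Fm.subst, τ]
      rw [h1]
      conv_rhs => rw [← hrepB j]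
      rw [hclB]
      intro u
      have h2 : cl' ((repB j).subst (trunc k)) = cl' (repB j) := by
        rw [hcl', subst_iff, trunc_trunc]
        exact der_iff_refl hS _ _
      rw [h2]
    · intro a b
      have h1 : R2.inf a b = cl2 (fm.inf (rep2 a) (rep2 b)) := by rw [hh2.inf, hrep2, hrep2]
      rw [h1, hwd]
      exact hhomτ.inf _ _
    · intro a b
      have h1 : R2.sup a b = cl2 (fm.sup (rep2 a) (rep2 b)) := by rw [hh2.sup, hrep2, hrep2]
      rw [h1, hwd]
      exact hhomτ.sup _ _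
    · intro a b
      have h1 : R2.imp a b = cl2 (fm.imp (rep2 a) (rep2 b)) := by rw [hh2.imp, hrep2, hrep2]
      rw [h1, hwd]
      exact hhomτ.imp _ _
    · have h1 : R2.bot = cl2 fm.bot := by rw [hh2.bot]
      rw [h1, hwd]
      exact hhomτ.bot
  -- step 6
  obtain ⟨l3, R3, cl3, hl3, hs3, hh3, hcl3⟩ := LT_exists hS ∅ (trunc m) m
    (fun j hj => by simp [trunc]; omega)
  have hsep3 := LT_sepF hS _ _ hs3 hh3 hcl3
  have hthm : ∀ θ : Fm, S.der ∅ θ → B.Valid ∅ θ := by
    intro θ hθ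
    refine hcrit2.valid (LT_valid hS _ _ hs2 hh2 hcl2 ∅ θ fun ρ _ => ?_)
    have h1 := S.structural _ _ ρ hθ
    have h2 := S.structural _ _ τ h1
    rw [Set.image_empty, Set.image_empty] at h2
    exact S.mono (Set.empty_subset _) h2
  let vB : ℕ → Fin m := fun j => if h : j < m then ⟨j, h⟩ else B.bot
  have hvB : ∀ φ : Fm, B.eval vB (φ.subst (trunc m)) = B.eval vB φ := by
    intro φ
    rw [eval_subst]
    congr 1
    funext i
    simp only [trunc, vB]
    split_ifs with h
    · simp [RA.eval, h]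
    · rfl
  have hcrit3 : Sep B R3 := by
    refine hcrit m hmle' l3 ((hl3.trans (by rw [hcard])).trans hNN) B R3 hSepB hsep3 ?_
    choose rep3 hrep3 using hs3
    have hwd : ∀ φ, B.eval vB (rep3 (cl3 φ)) = B.eval vB φ := by
      intro φ
      have h1 : S.der ∅ ((Fm.iff (rep3 (cl3 φ)) φ).subst (trunc m)) := by
        rw [← hcl3, hrep3]
      have h2 := hthm _ h1 vB (by simp)
      rw [hvB, eval_iff] at h2
      exact hgoodB.eq _ _ h2
    have hhomv := isHom_eval B vB
    refine ⟨fun x => B.eval vB (rep3 x), fun j => ⟨cl3 (Fm.var j), ?_⟩, ⟨?_, ?_, ?_, ?_⟩⟩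
    · simp only
      rw [hwd]
      simp [RA.eval, vB]
    · intro a b
      have h1 : R3.inf a b = cl3 (fm.inf (rep3 a) (rep3 b)) := by rw [hh3.inf, hrep3, hrep3]
      rw [h1, hwd]
      exact hhomv.inf _ _
    · intro a b
      have h1 : R3.sup a b = cl3 (fm.sup (rep3 a) (rep3 b)) := by rw [hh3.sup, hrep3, hrep3]
      rw [h1, hwd]
      exact hhomv.sup _ _
    · intro a b
      have h1 : R3.imp a b = cl3 (fm.imp (rep3 a) (rep3 b)) := by rw [hh3.imp, hrep3, hrep3]
      rw [h1, hwd]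
      exact hhomv.imp _ _
    · have h1 : R3.bot = cl3 fm.bot := by rw [hh3.bot]
      rw [h1, hwd]
      exact hhomv.bot
  -- step 7
  have hvalid3 : R3.Valid Γ β := by
    refine LT_valid hS _ _ hs3 hh3 hcl3 Γ β fun ρ h => ?_
    rw [Fm.subst_subst]
    refine hadm _ fun C hC => ?_
    rw [← Fm.subst_subst]
    exact h C hC
  -- step 8
  have hvalidB : B.Valid Γ β := hcrit3.valid hvalid3
  -- step 9
  have key : ∀ φ : Fm, B.eval (fun i => clB (Fm.var i)) φ = clB φ := by
    intro φ
    have h1 := hhB.eval Fm.var φ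
    rw [← h1, fm_eval, Fm.subst_var]
  have h9 := hvalidB (fun i => clB (Fm.var i)) (fun C hC => by
    rw [key, ← hhB.top, hclB]
    intro u
    have : cl' C = cl' fm.top := by
      rw [hh'.top, htop', hk C hC]
      exact S.ax _ _ (by exact_mod_cast hC)
    rw [this])
  rw [key, ← hhB.top, hclB] at h9
  have h10 := h9 uid
  rw [huid, huid, hh'.top] at h10
  exact hu0 h10

include e in
theorem hsc_iff_crit : (logicSystem A).completion.HereditarilyStructurallyComplete ↔
    Crit A (n ^ (n ^ n)) (n ^ (n ^ (n ^ (n ^ n)))) :=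
  ⟨fun h => crit_of_hsc h _ _, fun h => hsc_of_crit e h⟩

end

end Pool.Agent.H877R3.HSC
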