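import Pool.Agent.H877R3.HSC.Arith

/-!
# The finite criterion as a bounded arithmetical statement about the operation tables
-/

set_option autoImplicit false

namespace Pool.Agent.H877R3.HSC

def dig (c b i : ℕ) : ℕ := c / b ^ i % b

def xn (x : List ℕ) : ℕ := x.getD 0 0
def xb (x : List ℕ) : ℕ := x.getD 1 0
def xi (x : List ℕ) (i j : ℕ) : ℕ := x.getD (2 + (i * xn x + j)) 0
def xs (x : List ℕ) (i j : ℕ) : ℕ := x.getD (2 + xn x * xn x + (i * xn x + j)) 0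
def xp (x : List ℕ) (i j : ℕ) : ℕ := x.getD (2 + 2 * (xn x * xn x) + (i * xn x + j)) 0
def xP (x : List ℕ) : ℕ := xn x ^ xn x
def xM (x : List ℕ) : ℕ := xn x ^ xP x

def HomN (m : ℕ) (i1 s1 p1 : ℕ → ℕ → ℕ) (b1 : ℕ) (i2 s2 p2 : ℕ → ℕ → ℕ) (b2 : ℕ)
    (h : ℕ → ℕ) : Prop :=
  (∀ a < m, ∀ b < m, h (i1 a b) = i2 (h a) (h b) ∧ h (s1 a b) = s2 (h a) (h b) ∧
    h (p1 a b) = p2 (h a) (h b)) ∧ h b1 = b2

def ClosedN (x : List ℕ) (S : ℕ) : Prop :=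
  (∀ i < xn x, ∀ g < xM x, (∀ q < xP x, dig g (xn x) q = dig q (xn x) i) → dig S 2 g = 1) ∧
  (∀ g < xM x, (∀ q < xP x, dig g (xn x) q = xb x) → dig S 2 g = 1) ∧
  (∀ g1 < xM x, ∀ g2 < xM x, dig S 2 g1 = 1 → dig S 2 g2 = 1 → ∀ g3 < xM x,
    ((∀ q < xP x, dig g3 (xn x) q = xi x (dig g1 (xn x) q) (dig g2 (xn x) q)) →
      dig S 2 g3 = 1) ∧
    ((∀ q < xP x, dig g3 (xn x) q = xs x (dig g1 (xn x) q) (dig g2 (xn x) q)) →
      dig S 2 g3 = 1) ∧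
    ((∀ q < xP x, dig g3 (xn x) q = xp x (dig g1 (xn x) q) (dig g2 (xn x) q)) →
      dig S 2 g3 = 1))

def SepFN (x : List ℕ) (m : ℕ) (i s p : ℕ → ℕ → ℕ) (b : ℕ) : Prop :=
  ∀ y < m, ∀ z < m, ¬ y = z → ∃ H < xn x ^ (m * xP x),
    (∀ a < m, ∀ g < xM x, (∀ q < xP x, dig g (xn x) q = dig H (xn x) (a * xP x + q)) →
      ∀ S < 2 ^ xM x, ClosedN x S → dig S 2 g = 1) ∧
    (∀ q < xP x, HomN m i s p b (xi x) (xs x) (xp x) (xb x)
      (fun a => dig H (xn x) (a * xP x + q))) ∧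
    ∃ q < xP x, ¬ dig H (xn x) (y * xP x + q) = dig H (xn x) (z * xP x + q)

def SepN (m : ℕ) (i1 s1 p1 : ℕ → ℕ → ℕ) (b1 : ℕ) (l : ℕ) (i2 s2 p2 : ℕ → ℕ → ℕ) (b2 : ℕ) :
    Prop :=
  ∀ y < m, ∀ z < m, ¬ y = z → ∃ h < l ^ m, HomN m i1 s1 p1 b1 i2 s2 p2 b2 (fun a => dig h l a) ∧
    ¬ dig h l y = dig h l z

/-- coded binary operation on `{0, …, m - 1}` -/
def opc (c m : ℕ) (a b : ℕ) : ℕ := dig c m (a * m + b)

def CritN (x : List ℕ) : Prop :=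
  ∀ m < xM x + 1, ∀ l < xn x ^ (xn x ^ xM x) + 1,
  ∀ bi < m ^ (m * m), ∀ bs < m ^ (m * m), ∀ bp < m ^ (m * m), ∀ bb < m,
  ∀ ci < l ^ (l * l), ∀ cs < l ^ (l * l), ∀ cp < l ^ (l * l), ∀ cb < l,
  SepFN x m (opc bi m) (opc bs m) (opc bp m) bb →
  SepFN x l (opc ci l) (opc cs l) (opc cp l) cb →
  (∃ g < m ^ l, (∀ j < m, ∃ k < l, dig g m k = j) ∧
    HomN l (opc ci l) (opc cs l) (opc cp l) cb (opc bi m) (opc bs m) (opc bp m) bb
      (fun a => dig g m a)) →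
  SepN m (opc bi m) (opc bs m) (opc bp m) bb l (opc ci l) (opc cs l) (opc cp l) cb

/-! ## The same, as a formula -/

namespace Fo

def digT (c b i : Tm) : Tm := Tm.mod (Tm.div c (Tm.pow b i)) b
def n : Tm := Tm.inp (Tm.c 0)
def b0 : Tm := Tm.inp (Tm.c 1)
def iT (i j : Tm) : Tm := Tm.inp (Tm.add (Tm.c 2) (Tm.add (Tm.mul i n) j))
def sT (i j : Tm) : Tm :=
  Tm.inp (Tm.add (Tm.add (Tm.c 2) (Tm.mul n n)) (Tm.add (Tm.mul i n) j))
def pT (i j : Tm) : Tm :=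
  Tm.inp (Tm.add (Tm.add (Tm.c 2) (Tm.mul (Tm.c 2) (Tm.mul n n))) (Tm.add (Tm.mul i n) j))
def P : Tm := Tm.pow n n
def M : Tm := Tm.pow n P

def all (d : ℕ) (t : Tm) (p : Tm → Bf) : Bf := Bf.all t (p (Tm.v d))
def ex (d : ℕ) (t : Tm) (p : Tm → Bf) : Bf := Bf.ex t (p (Tm.v d))

def hom (d : ℕ) (m : Tm) (i1 s1 p1 : Tm → Tm → Tm) (b1 : Tm) (i2 s2 p2 : Tm → Tm → Tm) (b2 : Tm)
    (h : Tm → Tm) : Bf :=
  Bf.and (all d m fun a => all (d + 1) m fun b =>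
    Bf.and (Bf.eq (h (i1 a b)) (i2 (h a) (h b))) (Bf.and (Bf.eq (h (s1 a b)) (s2 (h a) (h b)))
      (Bf.eq (h (p1 a b)) (p2 (h a) (h b))))) (Bf.eq (h b1) b2)

def closed (d : ℕ) (S : Tm) : Bf :=
  Bf.and (all d n fun i => all (d + 1) M fun g =>
    Bf.imp (all (d + 2) P fun q => Bf.eq (digT g n q) (digT q n i))
      (Bf.eq (digT S (Tm.c 2) g) (Tm.c 1)))
  (Bf.and (all d M fun g => Bf.imp (all (d + 1) P fun q => Bf.eq (digT g n q) b0)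
    (Bf.eq (digT S (Tm.c 2) g) (Tm.c 1)))
  (all d M fun g1 => all (d + 1) M fun g2 => Bf.imp (Bf.eq (digT S (Tm.c 2) g1) (Tm.c 1))
    (Bf.imp (Bf.eq (digT S (Tm.c 2) g2) (Tm.c 1))
    (all (d + 2) M fun g3 =>
      Bf.and (Bf.imp (all (d + 3) P fun q => Bf.eq (digT g3 n q) (iT (digT g1 n q) (digT g2 n q)))
          (Bf.eq (digT S (Tm.c 2) g3) (Tm.c 1)))
      (Bf.and (Bf.imp (all (d + 3) P fun q => Bf.eq (digT g3 n q)
            (sT (digT g1 n q) (digT g2 n q))) (Bf.eq (digT S (Tm.c 2) g3) (Tm.c 1)))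
        (Bf.imp (all (d + 3) P fun q => Bf.eq (digT g3 n q)
            (pT (digT g1 n q) (digT g2 n q))) (Bf.eq (digT S (Tm.c 2) g3) (Tm.c 1))))))))

def sepF (d : ℕ) (m : Tm) (i s p : Tm → Tm → Tm) (b : Tm) : Bf :=
  all d m fun y => all (d + 1) m fun z => Bf.imp (Bf.not (Bf.eq y z))
    (ex (d + 2) (Tm.pow n (Tm.mul m P)) fun H =>
      Bf.and (all (d + 3) m fun a => all (d + 4) M fun g =>
        Bf.imp (all (d + 5) P fun q => Bf.eq (digT g n q) (digT H n (Tm.add (Tm.mul a P) q)))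
          (all (d + 5) (Tm.pow (Tm.c 2) M) fun S => Bf.imp (closed (d + 6) S)
            (Bf.eq (digT S (Tm.c 2) g) (Tm.c 1))))
      (Bf.and (all (d + 3) P fun q => hom (d + 4) m i s p b iT sT pT b0
          (fun a => digT H n (Tm.add (Tm.mul a P) q)))
        (ex (d + 3) P fun q => Bf.not (Bf.eq (digT H n (Tm.add (Tm.mul y P) q))
          (digT H n (Tm.add (Tm.mul z P) q))))))

def sep (d : ℕ) (m : Tm) (i1 s1 p1 : Tm → Tm → Tm) (b1 : Tm) (l : Tm) (i2 s2 p2 : Tm → Tm → Tm)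
    (b2 : Tm) : Bf :=
  all d m fun y => all (d + 1) m fun z => Bf.imp (Bf.not (Bf.eq y z))
    (ex (d + 2) (Tm.pow l m) fun h =>
      Bf.and (hom (d + 3) m i1 s1 p1 b1 i2 s2 p2 b2 (fun a => digT h l a))
        (Bf.not (Bf.eq (digT h l y) (digT h l z))))

def opT (c m : Tm) (a b : Tm) : Tm := digT c m (Tm.add (Tm.mul a m) b)

def crit : Bf :=
  all 0 (Tm.add M (Tm.c 1)) fun m => all 1 (Tm.add (Tm.pow n (Tm.pow n M)) (Tm.c 1)) fun l =>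
  all 2 (Tm.pow m (Tm.mul m m)) fun bi => all 3 (Tm.pow m (Tm.mul m m)) fun bs =>
  all 4 (Tm.pow m (Tm.mul m m)) fun bp => all 5 m fun bb =>
  all 6 (Tm.pow l (Tm.mul l l)) fun ci => all 7 (Tm.pow l (Tm.mul l l)) fun cs =>
  all 8 (Tm.pow l (Tm.mul l l)) fun cp => all 9 l fun cb =>
  Bf.imp (sepF 10 m (opT bi m) (opT bs m) (opT bp m) bb)
  (Bf.imp (sepF 10 l (opT ci l) (opT cs l) (opT cp l) cb)
  (Bf.imp (ex 10 (Tm.pow m l) fun g => Bf.and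
      (all 11 m fun j => ex 12 l fun k => Bf.eq (digT g m k) j)
      (hom 11 l (opT ci l) (opT cs l) (opT cp l) cb (opT bi m) (opT bs m) (opT bp m) bb
        (fun a => digT g m a)))
  (sep 10 m (opT bi m) (opT bs m) (opT bp m) bb l (opT ci l) (opT cs l) (opT cp l) cb)))

end Fo

set_option maxRecDepth 100000 in
theorem crit_holds (x : List ℕ) : Fo.crit.holds x [] ↔ CritN x := by
  simp only [Fo.crit, Fo.sepF, Fo.closed, Fo.hom, Fo.sep, Fo.all, Fo.ex, Fo.opT, Fo.digT, Fo.n,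
    Fo.b0, Fo.iT, Fo.sT, Fo.pT, Fo.P, Fo.M, Bf.holds, Tm.ev, List.nil_append, List.cons_append,
    List.getD_cons_zero, List.getD_cons_succ, Nat.reduceAdd]
  rfl

theorem critN_computable : ∃ f : List ℕ → Bool, Computable f ∧ ∀ x, (f x = true ↔ CritN x) := by
  obtain ⟨f, hf, h⟩ := Fo.crit.computable
  exact ⟨f, hf, fun x => (h x).trans (crit_holds x)⟩

end Pool.Agent.H877R3.HSC
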