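import Pool.Agent.H877R3.HSC.CritN
import Pool.Agent.H877R3.HSC.Core3

/-!
# Decoding the arithmetical criterion
-/

set_option autoImplicit false

namespace Pool.Agent.H877R3.HSC

open RA

theorem opTable_length {n : ℕ} (f : Fin n → Fin n → Fin n) : (opTable f).length = n * n := by
  simp [opTable]

theorem idx_lt {n : ℕ} (i j : Fin n) : (i : ℕ) * n + j < n * n := by
  have hi := i.2
  have hj := j.2
  calc (i : ℕ) * n + j < i * n + n := by omega
    _ = (i + 1) * n := by ring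
    _ ≤ n * n := Nat.mul_le_mul_right n hi

theorem opTable_getD {n : ℕ} (f : Fin n → Fin n → Fin n) (i j : Fin n) :
    (opTable f).getD ((i : ℕ) * n + j) 0 = f i j := by
  have h := idx_lt i j
  have hn : 0 < n := lt_of_le_of_lt (Nat.zero_le _) i.2
  rw [List.getD_eq_getElem _ _ (by rw [opTable_length]; exact h)]
  simp only [opTable, List.getElem_ofFn]
  congr 2
  · apply Fin.ext
    simp only [Fin.coe_divNat]
    rw [Nat.mul_comm, Nat.mul_add_div hn, Nat.div_eq_of_lt j.2, add_zero]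
  · apply Fin.ext
    simp only [Fin.coe_modNat]
    rw [Nat.mul_comm, Nat.mul_add_mod, Nat.mod_eq_of_lt j.2]

/-- `B` is represented by the given operations on natural numbers. -/
structure Rep {m : ℕ} (B : RA (Fin m)) (i s p : ℕ → ℕ → ℕ) (b : ℕ) : Prop where
  inf : ∀ a c : Fin m, i a c = B.inf a c
  sup : ∀ a c : Fin m, s a c = B.sup a c
  imp : ∀ a c : Fin m, p a c = B.imp a c
  bot : b = B.bot

theorem homN_iff {m l : ℕ} {B : RA (Fin m)} {C : RA (Fin l)} {i1 s1 p1 i2 s2 p2 : ℕ → ℕ → ℕ}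
    {b1 b2 : ℕ} (hB : Rep B i1 s1 p1 b1) (hC : Rep C i2 s2 p2 b2) (h : Fin m → Fin l)
    (h' : ℕ → ℕ) (hh : ∀ a : Fin m, h' a = h a) :
    HomN m i1 s1 p1 b1 i2 s2 p2 b2 h' ↔ IsHom B C h := by
  constructor
  · rintro ⟨h1, h2⟩
    refine ⟨fun a b => ?_, fun a b => ?_, fun a b => ?_, ?_⟩
    · have := (h1 a a.2 b b.2).1
      rw [hB.inf, hh, hh, hh, hC.inf] at this
      exact Fin.ext this
    · have := (h1 a a.2 b b.2).2.1
      rw [hB.sup, hh, hh, hh, hC.sup] at this
      exact Fin.ext this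
    · have := (h1 a a.2 b b.2).2.2
      rw [hB.imp, hh, hh, hh, hC.imp] at this
      exact Fin.ext this
    · rw [hB.bot, hh, hC.bot] at h2
      exact Fin.ext h2
  · intro hh2
    refine ⟨fun a ha b hb => ⟨?_, ?_, ?_⟩, ?_⟩
    · have := hB.inf ⟨a, ha⟩ ⟨b, hb⟩
      simp only at this
      rw [this, hh, hh2.inf, ← hC.inf, ← hh, ← hh]
    · have := hB.sup ⟨a, ha⟩ ⟨b, hb⟩
      simp only at this
      rw [this, hh, hh2.sup, ← hC.sup, ← hh, ← hh]
    · have := hB.imp ⟨a, ha⟩ ⟨b, hb⟩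
      simp only at this
      rw [this, hh, hh2.imp, ← hC.imp, ← hh, ← hh]
    · rw [hB.bot, hh, hh2.bot, hC.bot]

theorem dig_lt {b : ℕ} (hb : 0 < b) (c i : ℕ) : dig c b i < b := Nat.mod_lt _ hb

theorem exists_dig (a b : ℕ) (f : ℕ → ℕ) (hf : ∀ i < a, f i < b) :
    ∃ c < b ^ a, ∀ i < a, dig c b i = f i := by
  let F : Fin a → Fin b := fun i => ⟨f i, hf i i.2⟩
  refine ⟨finFunctionFinEquiv F, (finFunctionFinEquiv F).2, fun i hi => ?_⟩
  have h : finFunctionFinEquiv.symm (finFunctionFinEquiv F) = F := Equiv.symm_apply_apply _ _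
  have h2 := congrFun h ⟨i, hi⟩
  have h3 := congrArg Fin.val h2
  rw [finFunctionFinEquiv_symm_apply_val] at h3
  exact h3

theorem rep_code {m : ℕ} (B : RA (Fin m)) : ∃ bi < m ^ (m * m), ∃ bs < m ^ (m * m),
    ∃ bp < m ^ (m * m), ∃ bb < m, Rep B (opc bi m) (opc bs m) (opc bp m) bb := by
  have hm : 0 < m := lt_of_le_of_lt (Nat.zero_le _) B.bot.2
  have key : ∀ f : Fin m → Fin m → Fin m, ∃ c < m ^ (m * m), ∀ a b : Fin m, opc c m a b = f a b := by
    intro f
    obtain ⟨c, hc, h⟩ := exists_dig (m * m) m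
      (fun k => f ⟨k / m % m, Nat.mod_lt _ hm⟩ ⟨k % m, Nat.mod_lt _ hm⟩) (fun i _ => Fin.is_lt _)
    refine ⟨c, hc, fun a b => ?_⟩
    rw [opc, h _ (idx_lt a b)]
    congr 2
    · apply Fin.ext
      simp only
      rw [Nat.mul_comm, Nat.mul_add_div hm, Nat.div_eq_of_lt b.2, add_zero, Nat.mod_eq_of_lt a.2]
    · apply Fin.ext
      simp only
      rw [Nat.mul_comm, Nat.mul_add_mod, Nat.mod_eq_of_lt b.2]
  obtain ⟨bi, hbi, h1⟩ := key B.inf
  obtain ⟨bs, hbs, h2⟩ := key B.sup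
  obtain ⟨bp, hbp, h3⟩ := key B.imp
  exact ⟨bi, hbi, bs, hbs, bp, hbp, B.bot, B.bot.2, h1, h2, h3, rfl⟩

theorem rep_decode {m : ℕ} (bi bs bp bb : ℕ) (hb : bb < m) :
    ∃ B : RA (Fin m), Rep B (opc bi m) (opc bs m) (opc bp m) bb := by
  have hm : 0 < m := lt_of_le_of_lt (Nat.zero_le _) hb
  exact ⟨⟨fun a b => ⟨opc bi m a b, dig_lt hm _ _⟩, fun a b => ⟨opc bs m a b, dig_lt hm _ _⟩,
    fun a b => ⟨opc bp m a b, dig_lt hm _ _⟩, ⟨bb, hb⟩⟩, fun _ _ => rfl, fun _ _ => rfl,
    fun _ _ => rfl, rfl⟩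

theorem sepN_iff {m l : ℕ} {B : RA (Fin m)} {C : RA (Fin l)} {i1 s1 p1 i2 s2 p2 : ℕ → ℕ → ℕ}
    {b1 b2 : ℕ} (hB : Rep B i1 s1 p1 b1) (hC : Rep C i2 s2 p2 b2) :
    SepN m i1 s1 p1 b1 l i2 s2 p2 b2 ↔ Sep B C := by
  have hl : 0 < l := lt_of_le_of_lt (Nat.zero_le _) C.bot.2
  constructor
  · intro h x y hxy
    obtain ⟨c, hc, h1, h2⟩ := h x x.2 y y.2 (fun h => hxy (Fin.ext h))
    refine ⟨fun a => ⟨dig c l a, dig_lt hl _ _⟩, (homN_iff hB hC _ _ fun _ => rfl).1 h1, ?_⟩
    intro h3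
    exact h2 (congrArg Fin.val h3)
  · intro h x hx y hy hxy
    obtain ⟨f, h1, h2⟩ := h ⟨x, hx⟩ ⟨y, hy⟩ (fun h => hxy (congrArg Fin.val h))
    obtain ⟨c, hc, h3⟩ := exists_dig m l (fun a => if ha : a < m then f ⟨a, ha⟩ else 0)
      (fun i hi => by simp [hi])
    refine ⟨c, hc, (homN_iff hB hC f _ fun a => ?_).2 h1, ?_⟩
    · rw [h3 a a.2]; simp
    · rw [h3 x hx, h3 y hy, dif_pos hx, dif_pos hy]
      intro h4
      exact h2 (Fin.ext h4)

section

variable {A : Type} [HeytingAlgebra A] {n : ℕ} (e : A ≃ Fin n)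

/-- The algebra `A` transported to `Fin n`. -/
def toRA : RA (Fin n) := ⟨fun i j => e (e.symm i ⊓ e.symm j), fun i j => e (e.symm i ⊔ e.symm j),
  fun i j => e (e.symm i ⇨ e.symm j), e ⊥⟩

theorem isHom_toRA : IsHom (ofH A) (toRA e) e :=
  ⟨fun a b => by simp [ofH, toRA], fun a b => by simp [ofH, toRA],
    fun a b => by simp [ofH, toRA], rfl⟩

theorem isHom_toRA_symm : IsHom (toRA e) (ofH A) e.symm :=
  ⟨fun a b => by simp [ofH, toRA], fun a b => by simp [ofH, toRA],
    fun a b => by simp [ofH, toRA], by simp [ofH, toRA]⟩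

theorem xn_tables : xn (tables e) = n := rfl

theorem xb_tables : xb (tables e) = e ⊥ := rfl

theorem rep_tables : Rep (toRA e) (xi (tables e)) (xs (tables e)) (xp (tables e))
    (xb (tables e)) := by
  refine ⟨fun a c => ?_, fun a c => ?_, fun a c => ?_, rfl⟩
  · have h := idx_lt a c
    rw [xi, xn_tables, tables]
    have e1 : 2 + ((a : ℕ) * n + c) = ((a : ℕ) * n + c) + 1 + 1 := by ring
    rw [e1, List.getD_cons_succ, List.getD_cons_succ, List.getD_append _ _ _ _
      (by rw [opTable_length]; exact h), opTable_getD]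
    rfl
  · have h := idx_lt a c
    rw [xs, xn_tables, tables]
    have e1 : 2 + n * n + ((a : ℕ) * n + c) = (n * n + ((a : ℕ) * n + c)) + 1 + 1 := by ring
    rw [e1, List.getD_cons_succ, List.getD_cons_succ, List.getD_append_right _ _ _ _
      (by rw [opTable_length]; omega), opTable_length, Nat.add_sub_cancel_left,
      List.getD_append _ _ _ _ (by rw [opTable_length]; exact h), opTable_getD]
    rfl
  · have h := idx_lt a c
    rw [xp, xn_tables, tables]
    have e1 : 2 + 2 * (n * n) + ((a : ℕ) * n + c) =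
      (n * n + (n * n + ((a : ℕ) * n + c))) + 1 + 1 := by ring
    rw [e1, List.getD_cons_succ, List.getD_cons_succ, List.getD_append_right _ _ _ _
      (by rw [opTable_length]; omega), opTable_length, Nat.add_sub_cancel_left,
      List.getD_append_right _ _ _ _ (by rw [opTable_length]; omega), opTable_length,
      Nat.add_sub_cancel_left, opTable_getD]
    rfl

/-- The valuation coded by `q`. -/
noncomputable def vq (hn : 0 < n) (q : ℕ) : ℕ → A :=
  fun i => if i < n then e.symm ⟨dig q n i, dig_lt hn _ _⟩ else ⊥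

theorem exists_vq (hn : 0 < n) (u : ℕ → A) : ∃ q < n ^ n, ∀ i < n, vq e hn q i = u i := by
  obtain ⟨q, hq, h⟩ := exists_dig n n (fun i => e (u i)) (fun i _ => Fin.is_lt _)
  refine ⟨q, hq, fun i hi => ?_⟩
  rw [vq, if_pos hi]
  have : (⟨dig q n i, dig_lt hn _ _⟩ : Fin n) = e (u i) := Fin.ext (h i hi)
  rw [this, Equiv.symm_apply_apply]

/-- `g` is the code of a term function. -/
def TF (hn : 0 < n) (g : ℕ) : Prop :=
  ∃ φ : Fm, ∀ q < n ^ n, dig g n q = e (φ.eval (vq e hn q))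

theorem closed_of_TF (hn : 0 < n) {S : ℕ} (hS : ClosedN (tables e) S) (φ : Fm) :
    ∀ g < n ^ (n ^ n), (∀ q < n ^ n, dig g n q = e (φ.eval (vq e hn q))) → dig S 2 g = 1 := by
  obtain ⟨h1, h2, h3⟩ := hS
  have rep := rep_tables e
  induction φ with
  | var i =>
    intro g hg hq
    by_cases hi : i < n
    · refine h1 i hi g hg fun q hq' => ?_
      rw [xn_tables, hq q hq', Fm.eval, vq, if_pos hi, Equiv.apply_symm_apply]
    · refine h2 g hg fun q hq' => ?_
      rw [xn_tables, hq q hq', Fm.eval, vq, if_neg hi]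
      rfl
  | bot =>
    intro g hg hq
    refine h2 g hg fun q hq' => ?_
    rw [xn_tables, hq q hq']
    rfl
  | and a b iha ihb =>
    intro g hg hq
    obtain ⟨ga, hga, ha⟩ := exists_dig (n ^ n) n (fun q => e (a.eval (vq e hn q)))
      (fun i _ => Fin.is_lt _)
    obtain ⟨gb, hgb, hb⟩ := exists_dig (n ^ n) n (fun q => e (b.eval (vq e hn q)))
      (fun i _ => Fin.is_lt _)
    refine (h3 ga hga gb hgb (iha ga hga ha) (ihb gb hgb hb) g hg).1 fun q hq' => ?_
    rw [xn_tables, hq q hq', ha q hq', hb q hq', rep.inf]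
    simp [toRA, Fm.eval]
  | or a b iha ihb =>
    intro g hg hq
    obtain ⟨ga, hga, ha⟩ := exists_dig (n ^ n) n (fun q => e (a.eval (vq e hn q)))
      (fun i _ => Fin.is_lt _)
    obtain ⟨gb, hgb, hb⟩ := exists_dig (n ^ n) n (fun q => e (b.eval (vq e hn q)))
      (fun i _ => Fin.is_lt _)
    refine (h3 ga hga gb hgb (iha ga hga ha) (ihb gb hgb hb) g hg).2.1 fun q hq' => ?_
    rw [xn_tables, hq q hq', ha q hq', hb q hq', rep.sup]
    simp [toRA, Fm.eval]
  | imp a b iha ihb =>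
    intro g hg hq
    obtain ⟨ga, hga, ha⟩ := exists_dig (n ^ n) n (fun q => e (a.eval (vq e hn q)))
      (fun i _ => Fin.is_lt _)
    obtain ⟨gb, hgb, hb⟩ := exists_dig (n ^ n) n (fun q => e (b.eval (vq e hn q)))
      (fun i _ => Fin.is_lt _)
    refine (h3 ga hga gb hgb (iha ga hga ha) (ihb gb hgb hb) g hg).2.2 fun q hq' => ?_
    rw [xn_tables, hq q hq', ha q hq', hb q hq', rep.imp]
    simp [toRA, Fm.eval]

theorem cloA_iff (hn : 0 < n) (g : ℕ) (hg : g < n ^ (n ^ n)) :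
    (∀ S < 2 ^ (n ^ (n ^ n)), ClosedN (tables e) S → dig S 2 g = 1) ↔ TF e hn g := by
  classical
  constructor
  · intro h
    obtain ⟨S, hS, h1⟩ := exists_dig (n ^ (n ^ n)) 2 (fun g => if TF e hn g then 1 else 0)
      (fun i _ => by split_ifs <;> omega)
    have h1' : ∀ g < n ^ (n ^ n), (dig S 2 g = 1 ↔ TF e hn g) := by
      intro g hg
      rw [h1 g hg]
      split_ifs with h <;> simp [h]
    have rep := rep_tables e
    have hc : ClosedN (tables e) S := by
      refine ⟨fun i hi g hg hq => ?_, fun g hg hq => ?_, fun g1 hg1 g2 hg2 hs1 hs2 g3 hg3 => ?_⟩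
      · rw [h1' g hg]
        refine ⟨Fm.var i, fun q hq' => ?_⟩
        have hi' : i < n := hi
        have := hq q hq'
        rw [xn_tables] at this
        rw [this, Fm.eval, vq, if_pos hi', Equiv.apply_symm_apply]
      · rw [h1' g hg]
        refine ⟨Fm.bot, fun q hq' => ?_⟩
        have := hq q hq'
        rw [xn_tables] at this
        rw [this]
        rfl
      · rw [h1' g1 hg1] at hs1
        rw [h1' g2 hg2] at hs2
        obtain ⟨φ, hφ⟩ := hs1
        obtain ⟨ψ, hψ⟩ := hs2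
        rw [h1' g3 hg3]
        refine ⟨fun hq => ⟨Fm.and φ ψ, fun q hq' => ?_⟩, fun hq => ⟨Fm.or φ ψ, fun q hq' => ?_⟩,
          fun hq => ⟨Fm.imp φ ψ, fun q hq' => ?_⟩⟩
        · have := hq q hq'
          rw [xn_tables, hφ q hq', hψ q hq', rep.inf] at this
          rw [this]
          simp [toRA, Fm.eval]
        · have := hq q hq'
          rw [xn_tables, hφ q hq', hψ q hq', rep.sup] at this
          rw [this]
          simp [toRA, Fm.eval]
        · have := hq q hq'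
          rw [xn_tables, hφ q hq', hψ q hq', rep.imp] at this
          rw [this]
          simp [toRA, Fm.eval]
    exact (h1' g hg).1 (h S hS hc)
  · rintro ⟨φ, hφ⟩ S _ hc
    exact closed_of_TF e hn hc φ g hg hφ

theorem sepFN_iff {m : ℕ} {B : RA (Fin m)} {i s p : ℕ → ℕ → ℕ} {b : ℕ} (hB : Rep B i s p b) :
    SepFN (tables e) m i s p b ↔ SepF A B := by
  have hn : 0 < n := lt_of_le_of_lt (Nat.zero_le _) (e ⊥).2
  have hP : 0 < n ^ n := pow_pos hn _
  have rep := rep_tables e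
  constructor
  · intro h x y hxy
    obtain ⟨H, hH, h1, h2, q0, hq0, h3⟩ := h x x.2 y y.2 (fun h => hxy (Fin.ext h))
    have h4 : ∀ a : Fin m, ∃ φ : Fm, ∀ q < n ^ n,
        dig H n (a * (n ^ n) + q) = e (φ.eval (vq e hn q)) := by
      intro a
      obtain ⟨g, hg, hgd⟩ := exists_dig (n ^ n) n (fun q => dig H n (a * (n ^ n) + q))
        (fun q _ => dig_lt hn _ _)
      obtain ⟨φ, hφ⟩ := (cloA_iff e hn g hg).1 (h1 a a.2 g hg hgd)
      exact ⟨φ, fun q hq => by rw [← hφ q hq, hgd q hq]⟩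
    choose φ hφ using h4
    have hev : ∀ (a : Fin m) (u : ℕ → A) (q : ℕ), q < n ^ n → (∀ i < n, vq e hn q i = u i) →
        ((φ a).subst (trunc n)).eval u = e.symm ⟨dig H n (a * (n ^ n) + q), dig_lt hn _ _⟩ := by
      intro a u q hq hu
      rw [Fm.eval_subst]
      have h5 : (fun i => (trunc n i).eval u) = vq e hn q := by
        funext i
        unfold trunc
        split_ifs with hi
        · exact (hu i hi).symm
        · rw [vq, if_neg hi]; rfl
      rw [h5, Equiv.eq_symm_apply]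
      exact Fin.ext (hφ a q hq).symm
    refine ⟨fun a => (φ a).subst (trunc n), fun u => ?_, vq e hn q0, ?_⟩
    · obtain ⟨q, hq, hu⟩ := exists_vq e hn u
      have h5 := (homN_iff hB rep (fun a => (⟨dig H n (a * (n ^ n) + q), dig_lt hn _ _⟩ : Fin n))
        _ (fun _ => rfl)).1 (h2 q hq)
      have h6 := (isHom_toRA_symm e).comp h5
      simp only [hev _ u q hq hu]
      exact h6
    · rw [hev _ _ q0 hq0 (fun _ _ => rfl), hev _ _ q0 hq0 (fun _ _ => rfl)]
      intro h5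
      exact h3 (congrArg Fin.val (e.symm.injective h5))
  · intro h x hx y hy hxy
    obtain ⟨ρ, hρ, u0, hu0⟩ := h ⟨x, hx⟩ ⟨y, hy⟩ (fun h => hxy (congrArg Fin.val h))
    let ρ' : Fin m → Fm := fun b => (ρ b).subst (fun i => Fm.var (e (u0 i)))
    have hρ'eval : ∀ (u : ℕ → A) b, (ρ' b).eval u = (ρ b).eval (fun i => u (e (u0 i))) := by
      intro u b
      simp only [ρ', Fm.eval_subst]
      rfl
    obtain ⟨H, hH, hHd⟩ := exists_dig (m * n ^ n) n
      (fun k => if hk : k / n ^ n < m then e ((ρ' ⟨k / n ^ n, hk⟩).eval (vq e hn (k % n ^ n)))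
        else 0) (fun k _ => by split_ifs <;> [exact Fin.is_lt _; exact hn])
    have hHd' : ∀ (a : ℕ) (ha : a < m), ∀ q < n ^ n,
        dig H n (a * (n ^ n) + q) = e ((ρ' ⟨a, ha⟩).eval (vq e hn q)) := by
      intro a ha q hq
      have hlt : a * n ^ n + q < m * n ^ n := by
        calc a * n ^ n + q < a * n ^ n + n ^ n := by omega
          _ = (a + 1) * n ^ n := by ring
          _ ≤ m * n ^ n := Nat.mul_le_mul_right _ ha
      rw [hHd _ hlt]
      have e1 : (a * n ^ n + q) / n ^ n = a := by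
        rw [Nat.mul_comm, Nat.mul_add_div hP, Nat.div_eq_of_lt hq, add_zero]
      have e2 : (a * n ^ n + q) % n ^ n = q := by
        rw [Nat.mul_comm, Nat.mul_add_mod, Nat.mod_eq_of_lt hq]
      simp only [e1, e2]
      rw [dif_pos ha]
    refine ⟨H, hH, fun a ha g hg hgd => ?_, fun q hq => ?_, ?_⟩
    · refine (cloA_iff e hn g hg).2 ⟨ρ' ⟨a, ha⟩, fun q hq => ?_⟩
      have := hgd q hq
      rw [xn_tables] at this
      rw [this]
      exact hHd' a ha q hq
    · have h5 : IsHom B (toRA e) (fun a => e ((ρ' a).eval (vq e hn q))) := by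
        refine (isHom_toRA e).comp (f := fun a => (ρ' a).eval (vq e hn q)) ?_
        simp only [hρ'eval]
        exact hρ _
      refine (homN_iff hB rep _ _ fun a => ?_).2 h5
      exact hHd' a a.2 q hq
    · obtain ⟨q, hq, hu⟩ := exists_vq e hn (fun i => if h : i < n then e.symm ⟨i, h⟩ else ⊥)
      refine ⟨q, hq, ?_⟩
      have h6 := hHd' x hx q hq
      have h7 := hHd' y hy q hq
      have h8 : ∀ b, (ρ' b).eval (vq e hn q) = (ρ b).eval u0 := by
        intro b
        rw [hρ'eval]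
        congr 1
        funext i
        rw [hu _ (Fin.is_lt _)]
        simp
      rw [h8] at h6 h7
      intro h9
      apply hu0
      have h10 : dig H n (x * (n ^ n) + q) = dig H n (y * (n ^ n) + q) := h9
      rw [h6, h7] at h10
      exact e.injective (Fin.ext h10)

theorem critN_iff : CritN (tables e) ↔ Crit A (n ^ (n ^ n)) (n ^ (n ^ (n ^ (n ^ n)))) := by
  constructor
  · intro h m hm l hl B C hB hC ⟨g, gs, hg⟩
    obtain ⟨bi, hbi, bs, hbs, bp, hbp, bb, hbb, rB⟩ := rep_code B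
    obtain ⟨ci, hci, cs, hcs, cp, hcp, cb, hcb, rC⟩ := rep_code C
    have h1 := h m (Nat.lt_succ_of_le hm) l (Nat.lt_succ_of_le hl) bi hbi bs hbs bp hbp bb hbb
      ci hci cs hcs cp hcp cb hcb ((sepFN_iff e rB).2 hB) ((sepFN_iff e rC).2 hC)
    rw [sepN_iff rB rC] at h1
    apply h1
    have hm0 : 0 < m := lt_of_le_of_lt (Nat.zero_le _) hbb
    obtain ⟨c, hc, h3⟩ := exists_dig l m (fun a => if ha : a < l then g ⟨a, ha⟩ else 0)
      (fun i hi => by simp [hi])
    refine ⟨c, hc, fun j hj => ?_, (homN_iff rC rB g _ fun a => ?_).2 hg⟩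
    · obtain ⟨k, hk⟩ := gs ⟨j, hj⟩
      refine ⟨k, k.2, ?_⟩
      rw [h3 k k.2, dif_pos k.2]
      exact congrArg Fin.val hk
    · rw [h3 a a.2]; simp
  · intro h m hm l hl bi hbi bs hbs bp hbp bb hbb ci hci cs hcs cp hcp cb hcb h1 h2 h3
    obtain ⟨B, rB⟩ := rep_decode bi bs bp bb hbb
    obtain ⟨C, rC⟩ := rep_decode ci cs cp cb hcb
    rw [sepN_iff rB rC]
    refine h m (Nat.le_of_lt_succ hm) l (Nat.le_of_lt_succ hl) B C ((sepFN_iff e rB).1 h1)
      ((sepFN_iff e rC).1 h2) ?_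
    obtain ⟨g, hg, hs, hh⟩ := h3
    have hm0 : 0 < m := lt_of_le_of_lt (Nat.zero_le _) hbb
    refine ⟨fun a => ⟨dig g m a, dig_lt hm0 _ _⟩, fun j => ?_,
      (homN_iff rC rB _ _ fun _ => rfl).1 hh⟩
    obtain ⟨k, hk, hkj⟩ := hs j j.2
    exact ⟨⟨k, hk⟩, Fin.ext hkj⟩

end

end Pool.Agent.H877R3.HSC
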