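import Mathlib

/-!
# Deductive systems, structural completions, hereditary structural completeness
-/

set_option autoImplicit false

namespace Pool.Agent.H877R3.HSC

/-- Formulas of intuitionistic propositional logic over the variables `x 0, x 1, x 2, ...`. -/
inductive Fm : Type
  | var (i : ℕ) : Fm
  | bot : Fm
  | and (A B : Fm) : Fm
  | or (A B : Fm) : Fm
  | imp (A B : Fm) : Fm
  deriving DecidableEq

/-- The result of a substitution of formulas for the variables. -/
def Fm.subst (σ : ℕ → Fm) : Fm → Fm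
  | Fm.var i => σ i
  | Fm.bot => Fm.bot
  | Fm.and A B => Fm.and (A.subst σ) (B.subst σ)
  | Fm.or A B => Fm.or (A.subst σ) (B.subst σ)
  | Fm.imp A B => Fm.imp (A.subst σ) (B.subst σ)

/-- The value of a formula in a Heyting algebra under an assignment. -/
def Fm.eval {H : Type} [HeytingAlgebra H] (v : ℕ → H) : Fm → H
  | Fm.var i => v i
  | Fm.bot => ⊥
  | Fm.and A B => A.eval v ⊓ B.eval v
  | Fm.or A B => A.eval v ⊔ B.eval v
  | Fm.imp A B => A.eval v ⇨ B.eval v

/-- `L(H)`: the formulas whose value in the Heyting algebra `H` is the top element under every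
assignment. -/
def logicOf (H : Type) [HeytingAlgebra H] : Set Fm := {A | ∀ v : ℕ → H, A.eval v = ⊤}

/-- A deductive system: a structural (substitution-invariant) finitary consequence relation on
formulas. -/
structure DedSys where
  /-- `der Γ A`: the formula `A` is a consequence of the set `Γ` of formulas. -/
  der : Set Fm → Fm → Prop
  ax : ∀ Γ A, A ∈ Γ → der Γ A
  cut : ∀ Γ Δ A, (∀ B ∈ Δ, der Γ B) → der Δ A → der Γ A
  finitary : ∀ Γ A, der Γ A → ∃ Δ : Set Fm, Δ ⊆ Γ ∧ Δ.Finite ∧ der Δ A
  structural : ∀ Γ A (σ : ℕ → Fm), der Γ A → der (Fm.subst σ '' Γ) (A.subst σ)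

namespace DedSys

/-- The rule `Γ / B` (`Γ` a finite set of formulas) is admissible in `S`: every substitution that
makes all formulas of `Γ` theorems makes `B` a theorem. -/
def Admissible (S : DedSys) (Γ : Finset Fm) (B : Fm) : Prop :=
  ∀ σ : ℕ → Fm, (∀ C ∈ Γ, S.der ∅ (C.subst σ)) → S.der ∅ (B.subst σ)

/-- `S` is structurally complete: every rule admissible in `S` is derivable in `S`. -/
def StructurallyComplete (S : DedSys) : Prop :=
  ∀ (Γ : Finset Fm) (B : Fm), S.Admissible Γ B → S.der (↑Γ) B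

/-- `S'` extends `S`. -/
def Extends (S' S : DedSys) : Prop := ∀ Γ A, S.der Γ A → S'.der Γ A

/-- `S` is hereditarily structurally complete: every deductive system extending it is structurally
complete. -/
def HereditarilyStructurallyComplete (S : DedSys) : Prop :=
  ∀ S' : DedSys, S'.Extends S → S'.StructurallyComplete

theorem mono (S : DedSys) {Γ Δ : Set Fm} {A : Fm} (h : Γ ⊆ Δ) (hA : S.der Γ A) : S.der Δ A :=
  S.cut Δ Γ A (fun B hB => S.ax Δ B (h hB)) hA

end DedSys

theorem Fm.subst_subst (σ τ : ℕ → Fm) (A : Fm) :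
    (A.subst σ).subst τ = A.subst (fun i => (σ i).subst τ) := by
  induction A with
  | var i => rfl
  | bot => rfl
  | and A B hA hB => simp only [Fm.subst, hA, hB]
  | or A B hA hB => simp only [Fm.subst, hA, hB]
  | imp A B hA hB => simp only [Fm.subst, hA, hB]

theorem Fm.eval_subst {H : Type} [HeytingAlgebra H] (σ : ℕ → Fm) (v : ℕ → H) (A : Fm) :
    (A.subst σ).eval v = A.eval (fun i => (σ i).eval v) := by
  induction A with
  | var i => rfl
  | bot => rfl
  | and A B hA hB => simp only [Fm.subst, Fm.eval, hA, hB]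
  | or A B hA hB => simp only [Fm.subst, Fm.eval, hA, hB]
  | imp A B hA hB => simp only [Fm.subst, Fm.eval, hA, hB]

/-- `MPDer L Γ A`: the formula `A` is obtained from `L ∪ Γ` by modus ponens alone. -/
inductive MPDer (L : Set Fm) (Γ : Set Fm) : Fm → Prop
  | ax {A : Fm} : A ∈ L → MPDer L Γ A
  | hyp {A : Fm} : A ∈ Γ → MPDer L Γ A
  | mp {A B : Fm} : MPDer L Γ A → MPDer L Γ (Fm.imp A B) → MPDer L Γ B

theorem MPDer.cut {L Γ Δ : Set Fm} {A : Fm} (h : ∀ B ∈ Δ, MPDer L Γ B) (hA : MPDer L Δ A) :
    MPDer L Γ A := by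
  induction hA with
  | ax h' => exact MPDer.ax h'
  | hyp h' => exact h _ h'
  | mp _ _ ih1 ih2 => exact MPDer.mp ih1 ih2

theorem MPDer.finitary {L Γ : Set Fm} {A : Fm} (hA : MPDer L Γ A) :
    ∃ Δ : Set Fm, Δ ⊆ Γ ∧ Δ.Finite ∧ MPDer L Δ A := by
  induction hA with
  | ax h' => exact ⟨∅, by simp, by simp, MPDer.ax h'⟩
  | @hyp A h' => exact ⟨{A}, by simpa using h', by simp, MPDer.hyp (by simp)⟩
  | mp _ _ ih1 ih2 =>
    obtain ⟨Δ1, h1, f1, d1⟩ := ih1
    obtain ⟨Δ2, h2, f2, d2⟩ := ih2
    refine ⟨Δ1 ∪ Δ2, Set.union_subset h1 h2, f1.union f2, MPDer.mp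
      (d1.cut fun B hB => MPDer.hyp (Or.inl hB)) (d2.cut fun B hB => MPDer.hyp (Or.inr hB))⟩

theorem MPDer.structural {L Γ : Set Fm} {A : Fm} (σ : ℕ → Fm)
    (hL : ∀ (σ : ℕ → Fm), ∀ A ∈ L, A.subst σ ∈ L) (hA : MPDer L Γ A) :
    MPDer L (Fm.subst σ '' Γ) (A.subst σ) := by
  induction hA with
  | ax h' => exact MPDer.ax (hL σ _ h')
  | hyp h' => exact MPDer.hyp ⟨_, h', rfl⟩
  | mp _ _ ih1 ih2 => exact MPDer.mp ih1 ih2

/-- The deductive system `⟨L, MP⟩` of a set `L` of formulas closed under substitution: `Γ ⊢ A`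
holds iff `A` is obtained from `L ∪ Γ` by modus ponens alone. -/
def mpSystem (L : Set Fm) (hL : ∀ (σ : ℕ → Fm), ∀ A ∈ L, A.subst σ ∈ L) : DedSys where
  der := fun Γ A => MPDer L Γ A
  ax := fun _ _ h => MPDer.hyp h
  cut := fun _ _ _ h hA => hA.cut h
  finitary := fun _ _ h => h.finitary
  structural := fun _ _ σ h => h.structural σ hL

theorem logicOf_subst (H : Type) [HeytingAlgebra H] (σ : ℕ → Fm) (A : Fm)
    (hA : A ∈ logicOf H) : A.subst σ ∈ logicOf H := fun v => by
  rw [Fm.eval_subst]; exact hA _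

/-- The deductive system `⟨L(H), MP⟩` of a Heyting algebra `H`. -/
def logicSystem (H : Type) [HeytingAlgebra H] : DedSys := mpSystem (logicOf H) (logicOf_subst H)

/-- The structural completion of `S`: the deductive system whose derivable rules are exactly the
rules admissible in `S` (it is finitary, so a set `Γ` of formulas proves `A` iff for some finite
subset `Δ` of `Γ` the rule `Δ / A` is admissible in `S`). -/
def DedSys.completion (S : DedSys) : DedSys where
  der := fun Γ A => ∃ Δ : Finset Fm, (↑Δ : Set Fm) ⊆ Γ ∧ S.Admissible Δ A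
  ax := fun Γ A h => ⟨{A}, by simpa using h, fun σ hσ => hσ A (by simp)⟩
  cut := by
    classical
    rintro Γ Δ A h ⟨Δ', h1, h2⟩
    choose! f hf using h
    refine ⟨Δ'.biUnion f, ?_, ?_⟩
    · intro C hC
      simp only [Finset.coe_biUnion, Set.mem_iUnion, Finset.mem_coe] at hC
      obtain ⟨B, hB, hC⟩ := hC
      exact (hf B (h1 hB)).1 hC
    · intro σ hσ
      refine h2 σ fun B hB => (hf B (h1 hB)).2 σ fun C hC => hσ C ?_
      exact Finset.mem_biUnion.2 ⟨B, hB, hC⟩
  finitary := fun Γ A ⟨Δ, h1, h2⟩ => ⟨↑Δ, h1, Δ.finite_toSet, Δ, subset_rfl, h2⟩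
  structural := by
    classical
    rintro Γ A σ ⟨Δ, h1, h2⟩
    refine ⟨Δ.image (Fm.subst σ), ?_, ?_⟩
    · rw [Finset.coe_image]
      exact Set.image_mono h1
    · intro τ hτ
      rw [Fm.subst_subst]
      refine h2 _ fun C hC => ?_
      have := hτ (C.subst σ) (Finset.mem_image_of_mem _ hC)
      rwa [Fm.subst_subst] at this

/-- The completion extends the system. -/
theorem DedSys.completion_extends (S : DedSys) : S.completion.Extends S := by
  intro Γ A h
  obtain ⟨Δ, h1, h2, h3⟩ := S.finitary Γ A h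
  refine ⟨h2.toFinset, by simpa using h1, fun σ hσ => ?_⟩
  have h4 := S.structural Δ A σ h3
  refine S.cut _ _ _ ?_ h4
  rintro _ ⟨C, hC, rfl⟩
  exact hσ C (by simpa using hC)

theorem Fm.subst_var (A : Fm) : A.subst Fm.var = A := by
  induction A with
  | var i => rfl
  | bot => rfl
  | and A B hA hB => simp only [Fm.subst, hA, hB]
  | or A B hA hB => simp only [Fm.subst, hA, hB]
  | imp A B hA hB => simp only [Fm.subst, hA, hB]

/-- The completion has the same theorems. -/
theorem DedSys.completion_theorems (S : DedSys) (A : Fm) : S.completion.der ∅ A ↔ S.der ∅ A := by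
  constructor
  · rintro ⟨Δ, h1, h2⟩
    have h3 : Δ = ∅ := by simpa using h1
    subst h3
    have := h2 Fm.var (by simp)
    rwa [Fm.subst_var] at this
  · exact S.completion_extends ∅ A

/-- The completion is the least deductive system that extends `S` and derives all rules admissible
in `S`. -/
theorem DedSys.completion_least (S T : DedSys) (hT : T.Extends S)
    (h : ∀ (Γ : Finset Fm) (B : Fm), S.Admissible Γ B → T.der (↑Γ) B) :
    T.Extends S.completion := by
  rintro Γ A ⟨Δ, h1, h2⟩
  exact T.mono h1 (h Δ A h2)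

/-- The completion is the largest deductive system with the same theorems as `S`. -/
theorem DedSys.completion_largest (S T : DedSys) (h : ∀ A, T.der ∅ A ↔ S.der ∅ A) :
    S.completion.Extends T := by
  intro Γ A hA
  obtain ⟨Δ, h1, h2, h3⟩ := T.finitary Γ A hA
  refine ⟨h2.toFinset, by simpa using h1, fun σ hσ => ?_⟩
  rw [← h]
  refine T.cut _ _ _ ?_ (T.structural Δ A σ h3)
  rintro _ ⟨C, hC, rfl⟩
  exact (h _).2 (hσ C (by simpa using hC))

/-- The table of a binary operation on `{0, …, n - 1}`, row by row. -/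
def opTable {n : ℕ} (f : Fin n → Fin n → Fin n) : List ℕ :=
  List.ofFn fun p : Fin (n * n) => (f p.divNat p.modNat : ℕ)

/-- The operation tables of a finite Heyting algebra `A` whose elements are numbered by `e`: the
number `n` of elements, the number of the bottom element, and the `n × n` tables of the operations
`⊓`, `⊔`, `⇨`, row by row. -/
def tables {A : Type} [HeytingAlgebra A] {n : ℕ} (e : A ≃ Fin n) : List ℕ :=
  n :: (e ⊥ : ℕ) :: (opTable (fun i j => e (e.symm i ⊓ e.symm j)) ++
    (opTable (fun i j => e (e.symm i ⊔ e.symm j)) ++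
      opTable (fun i j => e (e.symm i ⇨ e.symm j))))

end Pool.Agent.H877R3.HSC
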